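import Mathlib
import Pool.Agent.SLX.Defs
import Pool.Agent.SLX.Rewriting
/-!
# Nilpotent groups and finite complete ShortLex systems: shared definitions (MP_6a3c10_al)
-/
namespace Pool.Agent.SLN
open Pool.Agent.SLX (val)

/-- The `k`-th power of a string. -/
def lpow {A : Type} (r : List A) : ℕ → List A
  | 0 => []
  | k + 1 => r ++ lpow r k

/-- What is used about the language of irreducible strings of a finite complete system whose
rules do not increase the length. -/
structure GoodLang {A G : Type} [Group G] (π : A → G) (L : List A → Prop) : Prop where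
  factor : ∀ p w q : List A, L (p ++ w ++ q) → L w
  uniq : ∀ u v : List A, L u → L v → val π u = val π v → u = v
  nf : ∀ w : List A, ∃ v, L v ∧ val π v = val π w ∧ v.length ≤ w.length
  glue : ∃ N : ℕ, ∀ u s w : List A, N ≤ s.length → L (u ++ s) → L (s ++ w) → L (u ++ s ++ w)

/-- Rational characters. -/
def IsChar {G : Type} [Group G] (f : G → ℚ) : Prop := ∀ g h, f (g * h) = f g + f h

/-- Elements on which all rational characters vanish. -/
def Flat {G : Type} [Group G] (g : G) : Prop := ∀ f : G → ℚ, IsChar f → f g = 0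

/-- A bi-invariant strict order, total up to elements of finite order (given by its positive
elements). -/
structure Cone {G : Type} [Group G] (P : Set G) : Prop where
  mul : ∀ g ∈ P, ∀ h ∈ P, g * h ∈ P
  conj : ∀ g ∈ P, ∀ x : G, x * g * x⁻¹ ∈ P
  total : ∀ g : G, g ∈ P ∨ g⁻¹ ∈ P ∨ IsOfFinOrder g
  tors : ∀ g ∈ P, ¬ IsOfFinOrder g

/-- Additive and conjugation invariant on the flat elements. -/
structure IsForm {G : Type} [Group G] (lam : G → ℚ) : Prop where
  mul : ∀ m n : G, Flat m → Flat n → lam (m * n) = lam m + lam n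
  conj : ∀ n x : G, Flat n → lam (x * n * x⁻¹) = lam n

/-- The commutator form. -/
def om {G : Type} [Group G] (lam : G → ℚ) (x y : G) : ℚ := lam (x * y * x⁻¹ * y⁻¹)

/-- Positive flat elements: first by `lam`, then by `P`. -/
def Up {G : Type} [Group G] (lam : G → ℚ) (P : Set G) (n : G) : Prop :=
  Flat n ∧ (0 < lam n ∨ (lam n = 0 ∧ n ∈ P))

/-- The string `w` has a maximal value among the strings of at most its length. -/
def IsMax {A G : Type} [Group G] (π : A → G) (lam : G → ℚ) (P : Set G) (w : List A) : Prop :=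
  ∀ w' : List A, w'.length ≤ w.length → ¬ Up lam P (val π w' * (val π w)⁻¹)

/-- Two letters with the same image in the abelianization modulo torsion. -/
def SameC {A G : Type} [Group G] (π : A → G) (a b : A) : Prop :=
  ∀ f : G → ℚ, IsChar f → f (π a) = f (π b)

/-- `x` is a vertex. -/
def Vert {A G : Type} [Group G] (π : A → G) (x : A) : Prop :=
  ∃ f : G → ℚ, IsChar f ∧ f (π x) = 1 ∧ (∀ a, f (π a) ≤ 1) ∧ ∀ a, f (π a) = 1 → SameC π a x

/-- The letters on which `g` is maximal lie on the segment from `x` to `y`. -/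
structure Edge {A G : Type} [Group G] (π : A → G) (lam : G → ℚ) (x y : A) (s : A → ℚ)
    (g : G → ℚ) : Prop where
  char : IsChar g
  le : ∀ a, g (π a) ≤ 1
  gx : g (π x) = 1
  gy : g (π y) = 1
  pos : 0 < om lam (π x) (π y)
  seg : ∀ a, g (π a) = 1 → 0 ≤ s a ∧ s a ≤ 1 ∧
    ∀ f : G → ℚ, IsChar f → f (π a) = (1 - s a) * f (π x) + s a * f (π y)

/-- The letters at `x` with maximal value. -/
def LM {A G : Type} [Group G] (π : A → G) (lam : G → ℚ) (P : Set G) (x a : A) : Prop :=
  SameC π a x ∧ ∀ b, SameC π b x → ¬ Up lam P (π b * (π a)⁻¹)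

/-- One can pass in `L` from long powers of letters at `x` to long powers of letters at `y`. -/
def Link {A G : Type} [Group G] (π : A → G) (lam : G → ℚ) (P : Set G) (L : List A → Prop)
    (x y : A) : Prop :=
  ∃ r t β : List A, r ≠ [] ∧ t ≠ [] ∧ (∀ a ∈ r, LM π lam P x a) ∧ (∀ a ∈ t, LM π lam P y a) ∧
    ∀ k, L (lpow r k ++ β ++ lpow t k)

/-- Thue-Morse words. -/
def tm {M : Type} [Mul M] : ℕ → M → M → M
  | 0, u, _ => u
  | n + 1, u, v => tm n u v * tm n v u

/-- Thue-Morse words, for strings. -/
def tmL {A : Type} : ℕ → List A → List A → List A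
  | 0, u, _ => u
  | n + 1, u, v => tmL n u v ++ tmL n v u

/-- Some subgroup of finite index is commutative. -/
def VirtAb (G : Type) [Group G] : Prop :=
  ∃ H : Subgroup G, H.FiniteIndex ∧ ∀ a ∈ H, ∀ b ∈ H, a * b = b * a

end Pool.Agent.SLN
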