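import Mathlib
import Pool.Agent.SLN.Defs
/-!
# Basic facts: strings, characters, flat elements, the commutator form
-/
namespace Pool.Agent.SLN
open Pool.Agent.SLX (val)

section strings
variable {A G : Type} [Group G] (π : A → G)

theorem vnil : val π [] = 1 := rfl

theorem vcons (a : A) (w : List A) : val π (a :: w) = π a * val π w := by
  simp [val]

theorem vapp (u v : List A) : val π (u ++ v) = val π u * val π v := by
  simp [val]

theorem vlpow (r : List A) (k : ℕ) : val π (lpow r k) = val π r ^ k := by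
  induction k with
  | zero => simp [lpow, vnil]
  | succ k ih => rw [lpow, vapp, ih, pow_succ']

theorem length_lpow {A : Type} (r : List A) (k : ℕ) : (lpow r k).length = k * r.length := by
  induction k with
  | zero => simp [lpow]
  | succ k ih => rw [lpow, List.length_append, ih]; ring

theorem lpow_add {A : Type} (r : List A) (k l : ℕ) : lpow r (k + l) = lpow r k ++ lpow r l := by
  induction k with
  | zero => simp [lpow]
  | succ k ih => rw [Nat.succ_add, lpow, lpow, ih, List.append_assoc]

theorem lpow_mul {A : Type} (r : List A) (k l : ℕ) : lpow r (k * l) = lpow (lpow r k) l := by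
  induction l with
  | zero => simp [lpow]
  | succ l ih =>
    rw [Nat.mul_succ, Nat.add_comm, lpow_add, ih, lpow]

theorem mem_lpow {A : Type} {r : List A} {k : ℕ} {a : A} (h : a ∈ lpow r k) : a ∈ r := by
  induction k with
  | zero => simp [lpow] at h
  | succ k ih =>
    rw [lpow, List.mem_append] at h
    rcases h with h | h
    · exact h
    · exact ih h

theorem vtmL (n : ℕ) (u v : List A) :
    val π (tmL n u v) = tm n (val π u) (val π v) := by
  induction n generalizing u v with
  | zero => rfl
  | succ n ih => rw [tmL, tm, vapp, ih, ih]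

end strings

section chars
variable {G : Type} [Group G] {f : G → ℚ}

theorem IsChar.one (h : IsChar f) : f 1 = 0 := by
  have := h 1 1
  rw [one_mul] at this
  linarith

theorem IsChar.inv (h : IsChar f) (g : G) : f g⁻¹ = - f g := by
  have := h g g⁻¹
  rw [mul_inv_cancel, h.one] at this
  linarith

theorem IsChar.pow (h : IsChar f) (g : G) (k : ℕ) : f (g ^ k) = k * f g := by
  induction k with
  | zero => simp [h.one]
  | succ k ih => rw [pow_succ, h, ih]; push_cast; ring

theorem IsChar.add {f' : G → ℚ} (h : IsChar f) (h' : IsChar f') :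
    IsChar (fun g => f g + f' g) := by
  intro x y
  show f (x * y) + f' (x * y) = _
  rw [h, h']
  ring

theorem IsChar.smul (h : IsChar f) (c : ℚ) : IsChar (fun g => c * f g) := by
  intro x y
  show c * f (x * y) = _
  rw [h]
  ring

theorem IsChar.val {A : Type} {π : A → G} (h : IsChar f) (w : List A) :
    f (val π w) = (w.map (fun a => f (π a))).sum := by
  induction w with
  | nil => rw [vnil, h.one]; rfl
  | cons a w ih => rw [vcons, h, ih]; rfl

theorem IsChar.val_le {A : Type} {π : A → G} (h : IsChar f) (h1 : ∀ a, f (π a) ≤ 1)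
    (w : List A) : f (Pool.Agent.SLX.val π w) ≤ w.length := by
  induction w with
  | nil => rw [vnil, h.one]; simp
  | cons a w ih =>
    rw [vcons, h, List.length_cons]
    push_cast
    have := h1 a
    linarith

/-- If a string has the largest possible value for its length, all its letters are maximal. -/
theorem IsChar.all_one {A : Type} {π : A → G} (h : IsChar f) (h1 : ∀ a, f (π a) ≤ 1)
    {w : List A} (hw : (w.length : ℚ) ≤ f (Pool.Agent.SLX.val π w)) : ∀ a ∈ w, f (π a) = 1 := by
  induction w with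
  | nil => simp
  | cons a w ih =>
    rw [vcons, h, List.length_cons] at hw
    push_cast at hw
    have h2 := h.val_le h1 w
    have h3 := h1 a
    intro b hb
    rw [List.mem_cons] at hb
    rcases hb with rfl | hb
    · linarith
    · exact ih (by linarith) b hb

theorem IsChar.val_of_one {A : Type} {π : A → G} (h : IsChar f) {w : List A}
    (hw : ∀ a ∈ w, f (π a) = 1) : f (Pool.Agent.SLX.val π w) = w.length := by
  induction w with
  | nil => rw [vnil, h.one]; simp
  | cons a w ih =>
    rw [vcons, h, List.length_cons, ih (fun b hb => hw b (List.mem_cons_of_mem _ hb)),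
      hw a List.mem_cons_self]
    push_cast
    ring

end chars

section flat
variable {G : Type} [Group G]

theorem flat_one : Flat (1 : G) := fun _ hf => hf.one

theorem Flat.mul {m n : G} (hm : Flat m) (hn : Flat n) : Flat (m * n) := by
  intro f hf
  rw [hf, hm f hf, hn f hf, add_zero]

theorem Flat.inv {m : G} (hm : Flat m) : Flat m⁻¹ := by
  intro f hf
  rw [hf.inv, hm f hf, neg_zero]

theorem Flat.conj {m : G} (hm : Flat m) (x : G) : Flat (x * m * x⁻¹) := by
  intro f hf
  rw [hf, hf, hf.inv, hm f hf]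
  ring

theorem Flat.pow {m : G} (hm : Flat m) (k : ℕ) : Flat (m ^ k) := by
  intro f hf
  rw [hf.pow, hm f hf, mul_zero]

theorem flat_comm (x y : G) : Flat (x * y * x⁻¹ * y⁻¹) := by
  intro f hf
  rw [hf, hf, hf, hf.inv, hf.inv]
  ring

theorem flat_of_eq {x y : G} (h : ∀ f : G → ℚ, IsChar f → f x = f y) : Flat (x * y⁻¹) := by
  intro f hf
  rw [hf, hf.inv, h f hf]
  ring

theorem Flat.eq {x y : G} (h : Flat (x * y⁻¹)) {f : G → ℚ} (hf : IsChar f) : f x = f y := by
  have := h f hf
  rw [hf, hf.inv] at this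
  linarith

theorem flat_trans {x y z : G} (h : Flat (x * y⁻¹)) (h' : Flat (y * z⁻¹)) : Flat (x * z⁻¹) := by
  have := h.mul h'
  rwa [show x * y⁻¹ * (y * z⁻¹) = x * z⁻¹ by group] at this

theorem flat_symm {x y : G} (h : Flat (x * y⁻¹)) : Flat (y * x⁻¹) := by
  have := h.inv
  rwa [show (x * y⁻¹)⁻¹ = y * x⁻¹ by group] at this

end flat

section form
variable {G : Type} [Group G] {lam : G → ℚ}

theorem IsForm.one (h : IsForm lam) : lam 1 = 0 := by
  have := h.mul 1 1 flat_one flat_one
  rw [one_mul] at this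
  linarith

theorem IsForm.inv (h : IsForm lam) {n : G} (hn : Flat n) : lam n⁻¹ = - lam n := by
  have := h.mul n n⁻¹ hn hn.inv
  rw [mul_inv_cancel, h.one] at this
  linarith

theorem IsForm.pow (h : IsForm lam) {n : G} (hn : Flat n) (k : ℕ) : lam (n ^ k) = k * lam n := by
  induction k with
  | zero => simp [h.one]
  | succ k ih => rw [pow_succ, h.mul _ _ (hn.pow k) hn, ih]; push_cast; ring

theorem om_mul_right (h : IsForm lam) (x y z : G) :
    om lam x (y * z) = om lam x y + om lam x z := by
  have e : x * (y * z) * x⁻¹ * (y * z)⁻¹ =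
      (x * y * x⁻¹ * y⁻¹) * (y * (x * z * x⁻¹ * z⁻¹) * y⁻¹) := by group
  rw [om, e, h.mul _ _ (flat_comm x y) ((flat_comm x z).conj y), h.conj _ _ (flat_comm x z)]
  rfl

theorem om_symm (h : IsForm lam) (x y : G) : om lam y x = - om lam x y := by
  have e : y * x * y⁻¹ * x⁻¹ = (x * y * x⁻¹ * y⁻¹)⁻¹ := by group
  rw [om, e, h.inv (flat_comm x y)]
  rfl

theorem om_mul_left (h : IsForm lam) (x y z : G) :
    om lam (x * y) z = om lam x z + om lam y z := by
  rw [om_symm h z (x * y), om_mul_right h, om_symm h x z, om_symm h y z]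
  ring

theorem isChar_om (h : IsForm lam) (x : G) : IsChar (fun g => om lam x g) :=
  fun y z => om_mul_right h x y z

theorem isChar_om' (h : IsForm lam) (x : G) : IsChar (fun g => om lam g x) :=
  fun y z => om_mul_left h y z x

theorem om_self (h : IsForm lam) (x : G) : om lam x x = 0 := by
  have := om_symm h x x
  linarith

theorem om_pow_left (h : IsForm lam) (x y : G) (k : ℕ) : om lam (x ^ k) y = k * om lam x y :=
  (isChar_om' h y).pow x k

theorem om_pow_right (h : IsForm lam) (x y : G) (k : ℕ) : om lam x (y ^ k) = k * om lam x y :=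
  (isChar_om h x).pow y k

/-- The form depends only on the values of the characters. -/
theorem om_congr (h : IsForm lam) {x x' y y' : G} (hx : ∀ f : G → ℚ, IsChar f → f x = f x')
    (hy : ∀ f : G → ℚ, IsChar f → f y = f y') : om lam x y = om lam x' y' := by
  rw [hy _ (isChar_om h x), hx _ (isChar_om' h y')]

/-- The value of a quotient of two products with flat quotients. -/
theorem lam_mul_mul (h : IsForm lam) {u v u' v' : G} (hu : Flat (u * u'⁻¹))
    (hv : Flat (v * v'⁻¹)) : lam (u * v * (u' * v')⁻¹) = lam (u * u'⁻¹) + lam (v * v'⁻¹) := by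
  have e : u * v * (u' * v')⁻¹ = (u * (v * v'⁻¹) * u⁻¹) * (u * u'⁻¹) := by group
  rw [e, h.mul _ _ (hv.conj u) hu, h.conj _ _ hv]
  ring

theorem lam_trans (h : IsForm lam) {x y z : G} (hx : Flat (x * y⁻¹)) (hy : Flat (y * z⁻¹)) :
    lam (x * z⁻¹) = lam (x * y⁻¹) + lam (y * z⁻¹) := by
  rw [← h.mul _ _ hx hy]
  congr 1
  group

end form

section up
variable {G : Type} [Group G] {lam : G → ℚ} {P : Set G}

theorem Up.mul (hP : Cone P) (h : IsForm lam) {m n : G} (hm : Up lam P m) (hn : Up lam P n) :
    Up lam P (m * n) := by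
  obtain ⟨fm, hm⟩ := hm
  obtain ⟨fn, hn⟩ := hn
  refine ⟨fm.mul fn, ?_⟩
  rw [h.mul _ _ fm fn]
  rcases hm with hm | ⟨hm, hm'⟩ <;> rcases hn with hn | ⟨hn, hn'⟩
  · left; linarith
  · left; linarith
  · left; linarith
  · right; exact ⟨by linarith, hP.mul _ hm' _ hn'⟩

theorem Up.conj (hP : Cone P) (h : IsForm lam) {m : G} (hm : Up lam P m) (x : G) :
    Up lam P (x * m * x⁻¹) := by
  obtain ⟨fm, hm⟩ := hm
  refine ⟨fm.conj x, ?_⟩
  rw [h.conj _ _ fm]
  rcases hm with hm | ⟨hm, hm'⟩
  · left; exact hm
  · right; exact ⟨hm, hP.conj _ hm' x⟩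

theorem lam_tors (h : IsForm lam) {m : G} (fm : Flat m) (hm : IsOfFinOrder m) : lam m = 0 := by
  obtain ⟨k, hk, hk'⟩ := isOfFinOrder_iff_pow_eq_one.1 hm
  have := h.pow fm k
  rw [hk', h.one] at this
  have hk2 : (k : ℚ) ≠ 0 := by exact_mod_cast hk.ne'
  rcases mul_eq_zero.1 this.symm with h' | h'
  · exact absurd h' hk2
  · exact h'

theorem Up.not_tors (hP : Cone P) (h : IsForm lam) {m : G} (hm : Up lam P m) :
    ¬ IsOfFinOrder m := by
  intro ht
  obtain ⟨fm, hm⟩ := hm
  rcases hm with hm | ⟨_, hm'⟩
  · rw [lam_tors h fm ht] at hm; exact lt_irrefl _ hm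
  · exact hP.tors _ hm' ht

theorem Up.total (hP : Cone P) (h : IsForm lam) {m : G} (fm : Flat m) :
    Up lam P m ∨ Up lam P m⁻¹ ∨ IsOfFinOrder m := by
  rcases lt_trichotomy (lam m) 0 with hl | hl | hl
  · right; left
    refine ⟨fm.inv, Or.inl ?_⟩
    rw [h.inv fm]; linarith
  · rcases hP.total m with h1 | h1 | h1
    · left; exact ⟨fm, Or.inr ⟨hl, h1⟩⟩
    · right; left; exact ⟨fm.inv, Or.inr ⟨by rw [h.inv fm, hl, neg_zero], h1⟩⟩
    · right; right; exact h1
  · left; exact ⟨fm, Or.inl hl⟩

end up

end Pool.Agent.SLN
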