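import Mathlib
import Pool.Agent.SLN.Basic
/-!
# Abelian groups have an order which is total up to elements of finite order
-/
namespace Pool.Agent.SLN

private def PC (B : Type) [CommGroup B] : Set (Set B) :=
  {P | (∀ a ∈ P, ∀ b ∈ P, a * b ∈ P) ∧ ∀ a ∈ P, ¬ IsOfFinOrder a}

private theorem fin_mul {B : Type} [CommGroup B] {a b : B} (ha : IsOfFinOrder a)
    (hb : IsOfFinOrder b) : IsOfFinOrder (a * b) :=
  ha.mul hb

private theorem pc_pow {B : Type} [CommGroup B] {P : Set B} (hP : P ∈ PC B) {z : B}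
    (hz : z ∈ P) : ∀ m : ℕ, 0 < m → z ^ m ∈ P := by
  intro m hm
  induction m with
  | zero => omega
  | succ m ih =>
    rcases Nat.eq_zero_or_pos m with h0 | h0
    · subst h0
      simpa using hz
    · rw [pow_succ]
      exact hP.1 _ (ih h0) _ hz

private theorem max_fin {B : Type} [CommGroup B] {P : Set B} (hP : Maximal (· ∈ PC B) P)
    {p t : B} (hp : p ∈ P) (ht : IsOfFinOrder t) : p * t ∈ P := by
  have h1 : {x | ∃ p ∈ P, ∃ t, IsOfFinOrder t ∧ x = p * t} ∈ PC B := by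
    refine ⟨?_, ?_⟩
    · rintro _ ⟨p1, hp1, t1, ht1, rfl⟩ _ ⟨p2, hp2, t2, ht2, rfl⟩
      exact ⟨p1 * p2, hP.prop.1 _ hp1 _ hp2, t1 * t2, fin_mul ht1 ht2, by
        rw [mul_mul_mul_comm]⟩
    · rintro _ ⟨p1, hp1, t1, ht1, rfl⟩ hf
      have h2 := fin_mul hf ht1.inv
      rw [mul_inv_cancel_right] at h2
      exact hP.prop.2 _ hp1 h2
  have h2 : P ⊆ {x | ∃ p ∈ P, ∃ t, IsOfFinOrder t ∧ x = p * t} := by
    intro x hx
    exact ⟨x, hx, 1, IsOfFinOrder.one, (mul_one x).symm⟩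
  have h3 := hP.le_of_ge h1 h2
  exact h3 ⟨p, hp, t, ht, rfl⟩

private theorem max_pow {B : Type} [CommGroup B] {P : Set B} (hP : Maximal (· ∈ PC B) P)
    {g : B} (hg : g ∉ P) (hgt : ¬ IsOfFinOrder g) : ∃ m : ℕ, 0 < m ∧ g⁻¹ ^ m ∈ P := by
  by_contra hcon
  push Not at hcon
  have h1 : {x | (∃ p ∈ P, ∃ m : ℕ, x = p * g ^ m) ∨
      (∃ t, IsOfFinOrder t ∧ ∃ m : ℕ, 0 < m ∧ x = t * g ^ m)} ∈ PC B := by
    refine ⟨?_, ?_⟩
    · rintro _ (⟨p1, hp1, m1, rfl⟩ | ⟨t1, ht1, m1, hm1, rfl⟩) _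
        (⟨p2, hp2, m2, rfl⟩ | ⟨t2, ht2, m2, hm2, rfl⟩)
      · left
        exact ⟨p1 * p2, hP.prop.1 _ hp1 _ hp2, m1 + m2, by rw [mul_mul_mul_comm, pow_add]⟩
      · left
        exact ⟨p1 * t2, max_fin hP hp1 ht2, m1 + m2, by rw [mul_mul_mul_comm, pow_add]⟩
      · left
        exact ⟨p2 * t1, max_fin hP hp2 ht1, m1 + m2, by
          rw [mul_mul_mul_comm, pow_add, mul_comm t1 p2]⟩
      · right
        exact ⟨t1 * t2, fin_mul ht1 ht2, m1 + m2, by omega, by rw [mul_mul_mul_comm, pow_add]⟩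
    · rintro _ (⟨p1, hp1, m1, rfl⟩ | ⟨t1, ht1, m1, hm1, rfl⟩) hf
      · rcases Nat.eq_zero_or_pos m1 with h0 | h0
        · subst h0
          rw [pow_zero, mul_one] at hf
          exact hP.prop.2 _ hp1 hf
        · apply hcon m1 h0
          have h3 := max_fin hP hp1 hf.inv
          have h4 : p1 * (p1 * g ^ m1)⁻¹ = g⁻¹ ^ m1 := by
            rw [mul_inv, mul_inv_cancel_left, inv_pow]
          rwa [h4] at h3
      · have h3 := fin_mul ht1.inv hf
        rw [inv_mul_cancel_left] at h3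
        rcases isOfFinOrder_pow.1 h3 with h4 | h4
        · exact hgt h4
        · omega
  have h2 : P ⊆ {x | (∃ p ∈ P, ∃ m : ℕ, x = p * g ^ m) ∨
      (∃ t, IsOfFinOrder t ∧ ∃ m : ℕ, 0 < m ∧ x = t * g ^ m)} := by
    intro x hx
    left
    exact ⟨x, hx, 0, by rw [pow_zero, mul_one]⟩
  have h3 := hP.le_of_ge h1 h2
  apply hg
  apply h3
  right
  exact ⟨1, IsOfFinOrder.one, 1, Nat.one_pos, by rw [pow_one, one_mul]⟩

theorem exists_cone_comm (B : Type) [CommGroup B] : ∃ P : Set B, Cone P := by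
  obtain ⟨P, hP⟩ : ∃ P, Maximal (· ∈ PC B) P := by
    apply zorn_subset
    intro c hc hchain
    refine ⟨⋃₀ c, ⟨?_, ?_⟩, fun s hs => Set.subset_sUnion_of_mem hs⟩
    · rintro a ⟨s, hs, has⟩ b ⟨s', hs', hbs⟩
      rcases hchain.total hs hs' with h | h
      · exact ⟨s', hs', (hc hs').1 _ (h has) _ hbs⟩
      · exact ⟨s, hs, (hc hs).1 _ has _ (h hbs)⟩
    · rintro a ⟨s, hs, has⟩
      exact (hc hs).2 _ has
  refine ⟨P, hP.prop.1, ?_, ?_, hP.prop.2⟩
  · intro g hg x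
    rw [mul_inv_cancel_comm]
    exact hg
  · intro g
    by_contra hcon
    push Not at hcon
    obtain ⟨h1, h2, h3⟩ := hcon
    obtain ⟨m, hm, hmP⟩ := max_pow hP h1 h3
    obtain ⟨l, hl, hlP⟩ := max_pow hP h2 (fun h => h3 (isOfFinOrder_inv_iff.1 h))
    rw [inv_inv] at hlP
    have h4 := pc_pow hP.prop hmP l hl
    have h5 := pc_pow hP.prop hlP m hm
    have h6 := hP.prop.1 _ h4 _ h5
    rw [← pow_mul, ← pow_mul, mul_comm l m, inv_pow, inv_mul_cancel] at h6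
    exact hP.prop.2 _ h6 IsOfFinOrder.one

end Pool.Agent.SLN
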