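import Mathlib
import Pool.Agent.SLN.Basic
/-!
# A finitely generated nilpotent group generated by elements of finite order is finite
-/
namespace Pool.Agent.SLN

private theorem tor0_step (G : Type) [Group G] (hq : Finite (G ⧸ Subgroup.center G)) (S : Set G)
    (hS : S.Finite) (hc : Subgroup.closure S = ⊤) (ht : ∀ s ∈ S, IsOfFinOrder s) : Finite G := by
  have : (Subgroup.center G).FiniteIndex := Subgroup.finiteIndex_of_finite_quotient
  have : Group.FG G := ⟨(Subgroup.fg_iff _).2 ⟨S, hc, hS⟩⟩
  have : Group.FG (Subgroup.center G) := Subgroup.fg_of_index_ne_zero _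
  letI : CommGroup (Subgroup.center G) :=
    { (inferInstance : Group (Subgroup.center G)) with
      mul_comm := fun a b => Subtype.ext ((Subgroup.mem_center_iff.1 b.2 a.1)) }
  have hT : (CommGroup.torsion (Subgroup.center G)).comap (MonoidHom.transferCenterPow G) = ⊤ := by
    rw [eq_top_iff, ← hc, Subgroup.closure_le]
    intro s hs
    exact MonoidHom.isOfFinOrder _ (ht s hs)
  have htor : IsMulTorsion (Subgroup.center G) := by
    intro z
    have h1 : (z : G) ∈ (CommGroup.torsion (Subgroup.center G)).comap
        (MonoidHom.transferCenterPow G) := by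
      rw [hT]; trivial
    have h2 : IsOfFinOrder (MonoidHom.transferCenterPow G (z : G)) := h1
    have h3 : MonoidHom.transferCenterPow G (z : G) = z ^ (Subgroup.center G).index := by
      apply Subtype.ext
      rw [MonoidHom.transferCenterPow_apply]
      rfl
    rw [h3] at h2
    exact (isOfFinOrder_pow.1 h2).resolve_right Subgroup.FiniteIndex.index_ne_zero
  have : Finite (Subgroup.center G) := CommGroup.finite_of_fg_isMulTorsion _ htor
  exact Finite.of_equiv _ (Subgroup.groupEquivQuotientProdSubgroup
    (s := Subgroup.center G)).symm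

private theorem tor0_aux (G : Type) [Group G] [Group.IsNilpotent G] : ∀ S : Set G,
    S.Finite → Subgroup.closure S = ⊤ → (∀ s ∈ S, IsOfFinOrder s) → Finite G := by
  refine Group.nilpotent_center_quotient_ind
    (P := fun (G : Type) [Group G] [Group.IsNilpotent G] => ∀ S : Set G,
      S.Finite → Subgroup.closure S = ⊤ → (∀ s ∈ S, IsOfFinOrder s) → Finite G) G ?_ ?_
  · intro G _ _ S _ _ _
    infer_instance
  · intro G _ _ ih S hS hc ht
    refine tor0_step G ?_ S hS hc ht
    refine ih ((QuotientGroup.mk' (Subgroup.center G)) '' S) (hS.image _) ?_ ?_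
    · rw [← MonoidHom.map_closure, hc, ← MonoidHom.range_eq_map]
      exact MonoidHom.range_eq_top.2 (QuotientGroup.mk'_surjective _)
    · rintro _ ⟨s, hs, rfl⟩
      exact MonoidHom.isOfFinOrder _ (ht s hs)

theorem finite_of_fg_torsion (G : Type) [Group G] [Group.IsNilpotent G] (S : Set G)
    (hS : S.Finite) (hc : Subgroup.closure S = ⊤) (ht : ∀ s ∈ S, IsOfFinOrder s) : Finite G :=
  tor0_aux G S hS hc ht

end Pool.Agent.SLN
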