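import Mathlib
import Pool.Agent.SLN.Tor0
/-!
# Elements of finite order in nilpotent groups
-/
namespace Pool.Agent.SLN

private theorem fin_clos {H : Type} [Group H] [Group.IsNilpotent H] (S : Set H) (hS : S.Finite)
    (hc : Subgroup.closure S = ⊤) {k : ℕ} (hk : 0 < k)
    (ht : ∀ s ∈ S, s ^ k ∈ Subgroup.center H) : Finite (H ⧸ Subgroup.center H) := by
  refine finite_of_fg_torsion (H ⧸ Subgroup.center H)
    ((QuotientGroup.mk' (Subgroup.center H)) '' S) (hS.image _) ?_ ?_
  · rw [← MonoidHom.map_closure, hc]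
    exact Subgroup.map_top_of_surjective _ (QuotientGroup.mk'_surjective _)
  · rintro _ ⟨s, hs, rfl⟩
    rw [isOfFinOrder_iff_pow_eq_one]
    refine ⟨k, hk, ?_⟩
    rw [← map_pow]
    exact (QuotientGroup.eq_one_iff _).2 (ht s hs)

private theorem pair_top {G : Type} [Group G] (g h : G) :
    Subgroup.closure (((↑) : Subgroup.closure {g, h} → G) ⁻¹' {g, h}) = ⊤ :=
  Subgroup.closure_closure_coe_preimage

private theorem pair_fin {G : Type} [Group G] (g h : G) :
    (((↑) : Subgroup.closure {g, h} → G) ⁻¹' {g, h}).Finite :=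
  Set.Finite.preimage (Subtype.val_injective.injOn) (by simp)

theorem tors_mul {G : Type} [Group G] [Group.IsNilpotent G] {g h : G}
    (hg : IsOfFinOrder g) (hh : IsOfFinOrder h) : IsOfFinOrder (g * h) := by
  have hfin : Finite (Subgroup.closure ({g, h} : Set G)) := by
    refine finite_of_fg_torsion _ _ (pair_fin g h) (pair_top g h) ?_
    rintro ⟨s, hs⟩ hs'
    rw [← Submonoid.isOfFinOrder_coe (x := (⟨s, hs⟩ : Subgroup.closure ({g, h} : Set G)))]
    rcases hs' with h1 | h1
    · rw [h1]; exact hg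
    · rw [show ((⟨s, hs⟩ : Subgroup.closure ({g, h} : Set G)) : G) = h from h1]; exact hh
  have hgm : g ∈ Subgroup.closure ({g, h} : Set G) := Subgroup.subset_closure (by simp)
  have hhm : h ∈ Subgroup.closure ({g, h} : Set G) := Subgroup.subset_closure (by simp)
  have := isOfFinOrder_of_finite (⟨g * h, mul_mem hgm hhm⟩ : Subgroup.closure ({g, h} : Set G))
  rw [isOfFinOrder_iff_pow_eq_one] at this ⊢
  obtain ⟨n, hn, h2⟩ := this
  exact ⟨n, hn, by simpa using congrArg Subtype.val h2⟩

theorem exists_pow_mul {G : Type} [Group G] [Group.IsNilpotent G] {g h : G} {k : ℕ}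
    (hk : 0 < k) (hg : g ^ k ∈ Subgroup.center G) (hh : h ^ k ∈ Subgroup.center G) :
    ∃ n, 0 < n ∧ k ∣ n ∧ (g * h) ^ n = g ^ n * h ^ n := by
  have hgm : g ∈ Subgroup.closure ({g, h} : Set G) := Subgroup.subset_closure (by simp)
  have hhm : h ∈ Subgroup.closure ({g, h} : Set G) := Subgroup.subset_closure (by simp)
  have hcen : ∀ x : Subgroup.closure ({g, h} : Set G), ((x : G)) ^ k ∈ Subgroup.center G →
      x ^ k ∈ Subgroup.center (Subgroup.closure ({g, h} : Set G)) := by
    intro x hx
    rw [Subgroup.mem_center_iff]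
    intro y
    apply Subtype.ext
    have := Subgroup.mem_center_iff.1 hx (y : G)
    simpa using this
  have hfin : Finite (Subgroup.closure ({g, h} : Set G) ⧸
      Subgroup.center (Subgroup.closure ({g, h} : Set G))) := by
    refine fin_clos _ (pair_fin g h) (pair_top g h) hk ?_
    rintro ⟨s, hs⟩ hs'
    apply hcen
    rcases hs' with h1 | h1
    · rw [h1]; exact hg
    · rw [show ((⟨s, hs⟩ : Subgroup.closure ({g, h} : Set G)) : G) = h from h1]; exact hh
  have : (Subgroup.center (Subgroup.closure ({g, h} : Set G))).FiniteIndex :=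
    Subgroup.finiteIndex_of_finite_quotient
  set n0 := (Subgroup.center (Subgroup.closure ({g, h} : Set G))).index with hn0
  have hn0p : 0 < n0 := Nat.pos_of_ne_zero Subgroup.FiniteIndex.index_ne_zero
  set g' : Subgroup.closure ({g, h} : Set G) := ⟨g, hgm⟩ with hg'
  set h' : Subgroup.closure ({g, h} : Set G) := ⟨h, hhm⟩ with hh'
  have hmul : (g' * h') ^ n0 = g' ^ n0 * h' ^ n0 := by
    have := map_mul (MonoidHom.transferCenterPow (Subgroup.closure ({g, h} : Set G))) g' h'
    apply Subtype.ext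
    have h2 := congrArg (fun z => ((z : Subgroup.closure ({g, h} : Set G)) : G))
      (congrArg (fun z : Subgroup.center (Subgroup.closure ({g, h} : Set G)) =>
        (z : Subgroup.closure ({g, h} : Set G))) this)
    exact h2
  have hcg : g' ^ n0 ∈ Subgroup.center (Subgroup.closure ({g, h} : Set G)) :=
    Subgroup.pow_index_mem _ _
  have hcomm : Commute (g' ^ n0) (h' ^ n0) := (Subgroup.mem_center_iff.1 hcg (h' ^ n0)).symm
  have hfinal : (g' * h') ^ (n0 * k) = g' ^ (n0 * k) * h' ^ (n0 * k) := by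
    rw [pow_mul, hmul, hcomm.mul_pow, ← pow_mul, ← pow_mul]
  refine ⟨n0 * k, Nat.mul_pos hn0p hk, Dvd.intro_left _ rfl, ?_⟩
  simpa [hg', hh'] using congrArg Subtype.val hfinal

end Pool.Agent.SLN
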