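import Mathlib
import Pool.Agent.SLN.Tor1
import Pool.Agent.SLN.ConeA
/-!
# Nilpotent groups have a bi-invariant order which is total up to elements of finite order
-/
namespace Pool.Agent.SLN

private theorem cone_pow {H : Type} [Group H] {Q : Set H} (hQ : Cone Q) {z : H} (hz : z ∈ Q) :
    ∀ m : ℕ, 0 < m → z ^ m ∈ Q := by
  intro m hm
  induction m with
  | zero => omega
  | succ m ih =>
    rcases Nat.eq_zero_or_pos m with h0 | h0
    · subst h0
      simpa using hz
    · rw [pow_succ]
      exact hQ.mul _ (ih h0) _ hz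

private theorem cone_mul_fin {H : Type} [Group H] [Group.IsNilpotent H] {Q : Set H}
    (hQ : Cone Q) {a t : H} (ha : a ∈ Q) (ht : IsOfFinOrder t) : a * t ∈ Q := by
  rcases hQ.total (a * t) with h | h | h
  · exact h
  · exfalso
    have h1 := hQ.mul _ h _ ha
    have h2 : (a * t)⁻¹ * a = t⁻¹ := by group
    rw [h2] at h1
    exact hQ.tors _ h1 ht.inv
  · exfalso
    have h1 := tors_mul h ht.inv
    have h2 : a * t * t⁻¹ = a := by group
    rw [h2] at h1
    exact hQ.tors _ ha h1

private theorem cone_fin_mul {H : Type} [Group H] [Group.IsNilpotent H] {Q : Set H}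
    (hQ : Cone Q) {a t : H} (ha : a ∈ Q) (ht : IsOfFinOrder t) : t * a ∈ Q := by
  have h1 := hQ.conj _ (cone_mul_fin hQ ha ht) t
  have h2 : t * (a * t) * t⁻¹ = t * a := by group
  rwa [h2] at h1

private theorem cone_step (G : Type) [Group G] [Group.IsNilpotent G]
    (Q : Set (G ⧸ Subgroup.center G)) (hQ : Cone Q) (Z : Set (Subgroup.center G))
    (hZ : Cone Z) : ∃ P : Set G, Cone P := by
  refine ⟨{g | (QuotientGroup.mk g : G ⧸ Subgroup.center G) ∈ Q} ∪
    {g | IsOfFinOrder (QuotientGroup.mk g : G ⧸ Subgroup.center G) ∧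
      ∃ k, 0 < k ∧ ∃ hk : g ^ k ∈ Subgroup.center G, (⟨g ^ k, hk⟩ : Subgroup.center G) ∈ Z},
    ?_, ?_, ?_, ?_⟩
  · rintro g (hg | ⟨hg, k, hk0, hk, hkZ⟩) h (hh | ⟨hh, l, hl0, hl, hlZ⟩)
    · left
      exact hQ.mul _ hg _ hh
    · left
      exact cone_mul_fin hQ hg hh
    · left
      exact cone_fin_mul hQ hh hg
    · right
      refine ⟨tors_mul hg hh, ?_⟩
      have hgK : g ^ (k * l) ∈ Subgroup.center G := by
        rw [pow_mul]
        exact Subgroup.pow_mem _ hk _
      have hhK : h ^ (k * l) ∈ Subgroup.center G := by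
        rw [mul_comm, pow_mul]
        exact Subgroup.pow_mem _ hl _
      obtain ⟨n, hn, ⟨c, hc⟩, hmul⟩ := exists_pow_mul (Nat.mul_pos hk0 hl0) hgK hhK
      have hc0 : 0 < c := by
        rcases Nat.eq_zero_or_pos c with h0 | h0
        · rw [h0] at hc
          omega
        · exact h0
      have e1 : g ^ n = (g ^ k) ^ (l * c) := by
        rw [← pow_mul, hc, mul_assoc]
      have e2 : h ^ n = (h ^ l) ^ (k * c) := by
        rw [← pow_mul, hc]
        congr 1
        ring
      have h3 : (g * h) ^ n ∈ Subgroup.center G := by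
        rw [hmul, e1, e2]
        exact mul_mem (Subgroup.pow_mem _ hk _) (Subgroup.pow_mem _ hl _)
      refine ⟨n, hn, h3, ?_⟩
      have h4 : (⟨(g * h) ^ n, h3⟩ : Subgroup.center G) =
          (⟨g ^ k, hk⟩ : Subgroup.center G) ^ (l * c) * (⟨h ^ l, hl⟩ : Subgroup.center G) ^ (k * c) := by
        apply Subtype.ext
        simp only [Subgroup.coe_mul, Subgroup.coe_pow]
        rw [hmul, e1, e2]
      rw [h4]
      exact hZ.mul _ (cone_pow hZ hkZ _ (Nat.mul_pos hl0 hc0)) _
        (cone_pow hZ hlZ _ (Nat.mul_pos hk0 hc0))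
  · rintro g (hg | ⟨hg, k, hk0, hk, hkZ⟩) x
    · left
      have h1 := hQ.conj _ hg (QuotientGroup.mk x)
      exact h1
    · right
      have h1 : (x * g * x⁻¹) ^ k = g ^ k := by
        rw [conj_pow, Subgroup.mem_center_iff.1 hk x]
        group
      refine ⟨?_, k, hk0, ?_, ?_⟩
      · have h2 : (QuotientGroup.mk (x * g * x⁻¹) : G ⧸ Subgroup.center G) =
            QuotientGroup.mk x * QuotientGroup.mk g * (QuotientGroup.mk x)⁻¹ := rfl
        rw [h2]
        rw [isOfFinOrder_iff_pow_eq_one] at hg ⊢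
        obtain ⟨n, hn, h3⟩ := hg
        refine ⟨n, hn, ?_⟩
        rw [conj_pow, h3]
        group
      · rw [h1]; exact hk
      · have h2 : (⟨(x * g * x⁻¹) ^ k, h1 ▸ hk⟩ : Subgroup.center G) = ⟨g ^ k, hk⟩ :=
          Subtype.ext h1
        exact h2 ▸ hkZ
  · intro g
    rcases hQ.total (QuotientGroup.mk g) with h | h | h
    · left; left; exact h
    · right; left; left; exact h
    · have h' := h
      rw [isOfFinOrder_iff_pow_eq_one] at h'
      obtain ⟨k, hk0, hk⟩ := h'
      have hkc : g ^ k ∈ Subgroup.center G := (QuotientGroup.eq_one_iff _).1 hk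
      rcases hZ.total ⟨g ^ k, hkc⟩ with h1 | h1 | h1
      · left; right
        exact ⟨h, k, hk0, hkc, h1⟩
      · right; left; right
        have h2 : g⁻¹ ^ k ∈ Subgroup.center G := by
          rw [inv_pow]
          exact Subgroup.inv_mem _ hkc
        refine ⟨h.inv, k, hk0, h2, ?_⟩
        have h3 : (⟨g⁻¹ ^ k, h2⟩ : Subgroup.center G) = (⟨g ^ k, hkc⟩ : Subgroup.center G)⁻¹ := by
          apply Subtype.ext
          simp
        rw [h3]
        exact h1
      · right; right
        rw [isOfFinOrder_iff_pow_eq_one] at h1 ⊢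
        obtain ⟨n, hn, h2⟩ := h1
        refine ⟨k * n, Nat.mul_pos hk0 hn, ?_⟩
        have h3 := congrArg Subtype.val h2
        rw [pow_mul]
        simpa using h3
  · rintro g (hg | ⟨hg, k, hk0, hk, hkZ⟩) hf
    · exact hQ.tors _ hg (MonoidHom.isOfFinOrder (QuotientGroup.mk' (Subgroup.center G)) hf)
    · refine hZ.tors _ hkZ ?_
      rw [isOfFinOrder_iff_pow_eq_one] at hf ⊢
      obtain ⟨n, hn, h2⟩ := hf
      refine ⟨n, hn, ?_⟩
      apply Subtype.ext
      simp only [Subgroup.coe_pow, Subgroup.coe_one]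
      rw [← pow_mul, mul_comm, pow_mul, h2, one_pow]

theorem exists_cone (G : Type) [Group G] [Group.IsNilpotent G] : ∃ P : Set G, Cone P := by
  refine Group.nilpotent_center_quotient_ind
    (P := fun (G : Type) [Group G] [Group.IsNilpotent G] => ∃ P : Set G, Cone P) G ?_ ?_
  · intro G _ _
    refine ⟨∅, ?_, ?_, ?_, ?_⟩
    · intro g hg
      exact absurd hg (Set.notMem_empty _)
    · intro g hg
      exact absurd hg (Set.notMem_empty _)
    · intro g
      right; right
      rw [Subsingleton.elim g 1]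
      exact IsOfFinOrder.one
    · intro g hg
      exact absurd hg (Set.notMem_empty _)
  · rintro G _ _ ⟨Q, hQ⟩
    obtain ⟨Z, hZ⟩ := @exists_cone_comm (Subgroup.center G)
      { (inferInstance : Group (Subgroup.center G)) with
        mul_comm := fun a b => Subtype.ext ((Subgroup.mem_center_iff.1 b.2 a.1)) }
    exact cone_step G Q hQ Z hZ

end Pool.Agent.SLN
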