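import Mathlib
import Pool.Agent.SLN.Basic
/-!
# Maximal strings over an edge are sorted
-/
namespace Pool.Agent.SLN
open Pool.Agent.SLX (val)

private theorem om_seg {A G : Type} [Group G] {π : A → G} {lam : G → ℚ}
    (hlam : IsForm lam) {x y : A} {s : A → ℚ} {g : G → ℚ} (hE : Edge π lam x y s g)
    {a b : A} (ha : g (π a) = 1) (hb : g (π b) = 1) :
    om lam (π b) (π a) = (s a - s b) * om lam (π x) (π y) := by
  have h1 : om lam (π b) (π a) = (1 - s a) * om lam (π b) (π x) + s a * om lam (π b) (π y) :=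
    (hE.seg a ha).2.2 _ (isChar_om hlam (π b))
  have h2 : om lam (π b) (π x) = (1 - s b) * om lam (π x) (π x) + s b * om lam (π y) (π x) :=
    (hE.seg b hb).2.2 _ (isChar_om' hlam (π x))
  have h3 : om lam (π b) (π y) = (1 - s b) * om lam (π x) (π y) + s b * om lam (π y) (π y) :=
    (hE.seg b hb).2.2 _ (isChar_om' hlam (π y))
  rw [h1, h2, h3, om_self hlam, om_self hlam, om_symm hlam (π x) (π y)]
  ring

private theorem adj_le {A G : Type} [Group G] {π : A → G} {lam : G → ℚ} {P : Set G}
    (hlam : IsForm lam) {x y : A} {s : A → ℚ} {g : G → ℚ} (hE : Edge π lam x y s g)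
    {p q : List A} {a b : A} (hw : IsMax π lam P (p ++ a :: b :: q))
    (ha : g (π a) = 1) (hb : g (π b) = 1) : s a ≤ s b := by
  by_contra hlt
  push Not at hlt
  refine hw (p ++ b :: a :: q) (by simp) ?_
  have e : val π (p ++ b :: a :: q) * (val π (p ++ a :: b :: q))⁻¹ =
      val π p * (π b * π a * (π b)⁻¹ * (π a)⁻¹) * (val π p)⁻¹ := by
    rw [vapp, vapp, vcons, vcons, vcons, vcons]
    group
  rw [e]
  refine ⟨(flat_comm _ _).conj _, Or.inl ?_⟩
  rw [hlam.conj _ _ (flat_comm _ _)]
  have h := om_seg hlam hE ha hb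
  have h2 : 0 < om lam (π b) (π a) := by
    rw [h]
    exact mul_pos (by linarith) hE.pos
  exact h2

private theorem sorted_aux {A G : Type} [Group G] {π : A → G} {lam : G → ℚ} {P : Set G}
    (hlam : IsForm lam) {x y : A} {s : A → ℚ} {g : G → ℚ} (hE : Edge π lam x y s g)
    (l : List A) : ∀ p : List A, IsMax π lam P (p ++ l) → (∀ a ∈ l, g (π a) = 1) →
    l.Pairwise (fun a b => s a ≤ s b) := by
  induction l with
  | nil => intro p _ _; exact List.Pairwise.nil
  | cons a l ih =>
    intro p hw h1
    have hl : l.Pairwise (fun a b => s a ≤ s b) := by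
      refine ih (p ++ [a]) ?_ (fun c hc => h1 c (List.mem_cons_of_mem _ hc))
      rw [List.append_assoc]
      exact hw
    refine List.Pairwise.cons ?_ hl
    cases l with
    | nil => intro c hc; simp at hc
    | cons b q =>
      have hab : s a ≤ s b := adj_le hlam hE hw (h1 a (by simp)) (h1 b (by simp))
      intro c hc
      rw [List.mem_cons] at hc
      rcases hc with rfl | hc
      · exact hab
      · exact hab.trans ((List.pairwise_cons.1 hl).1 c hc)

theorem sorted_of_isMax {A G : Type} [Group G] {π : A → G} {lam : G → ℚ} {P : Set G}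
    (hlam : IsForm lam) {x y : A} {s : A → ℚ} {g : G → ℚ} (hE : Edge π lam x y s g)
    {w : List A} (hw : IsMax π lam P w) (h1 : ∀ a ∈ w, g (π a) = 1) :
    w.Pairwise (fun a b => s a ≤ s b) :=
  sorted_aux hlam hE w [] hw h1

end Pool.Agent.SLN
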