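import Mathlib
import Pool.Agent.SLN.Basic
/-!
# Maximal strings have few letters inside an edge
-/
namespace Pool.Agent.SLN
open Pool.Agent.SLX (val)

section
variable {G : Type} [Group G] {lam : G → ℚ}

private theorem val_replicate {A : Type} (π : A → G) (a : A) (k : ℕ) :
    val π (List.replicate k a) = π a ^ k := by
  induction k with
  | zero => simp [vnil]
  | succ k ih => rw [List.replicate_succ, vcons, ih, pow_succ']

private theorem flat_T (X Y : G) (a b k : ℕ) :
    Flat (X ^ (a * k) * Y ^ (b * k) * ((X ^ a * Y ^ b) ^ k)⁻¹) := by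
  apply flat_of_eq
  intro f hf
  rw [hf, hf.pow, hf.pow, hf.pow, hf, hf.pow, hf.pow]
  push_cast
  ring

private theorem lam_T (h : IsForm lam) (X Y : G) (a b k : ℕ) :
    lam (X ^ (a * k) * Y ^ (b * k) * ((X ^ a * Y ^ b) ^ k)⁻¹) =
      a * b * (k * (k - 1) / 2) * om lam X Y := by
  induction k with
  | zero => simp [h.one]
  | succ k ih =>
    have h1 : X ^ (a * (k + 1)) * Y ^ (b * (k + 1)) * (X ^ a * Y ^ b * (X ^ (a * k) * Y ^ (b * k)))⁻¹
        = X ^ a * (X ^ (a * k) * Y ^ b * (X ^ (a * k))⁻¹ * (Y ^ b)⁻¹) * (X ^ a)⁻¹ := by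
      rw [show a * (k + 1) = a + a * k by ring, show b * (k + 1) = b + b * k by ring, pow_add,
        pow_add]
      group
    have f1 : Flat (X ^ (a * (k + 1)) * Y ^ (b * (k + 1)) *
        (X ^ a * Y ^ b * (X ^ (a * k) * Y ^ (b * k)))⁻¹) := by
      rw [h1]
      exact (flat_comm _ _).conj _
    have f2 : Flat (X ^ a * Y ^ b * (X ^ (a * k) * Y ^ (b * k)) *
        (X ^ a * Y ^ b * (X ^ a * Y ^ b) ^ k)⁻¹) := by
      apply flat_of_eq
      intro f hf
      simp only [hf _ _, hf.pow]
      push_cast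
      ring
    rw [pow_succ' (X ^ a * Y ^ b) k, lam_trans h f1 f2, h1, h.conj _ _ (flat_comm _ _)]
    have h2 := lam_mul_mul h (u := X ^ a * Y ^ b) (u' := X ^ a * Y ^ b)
      (v := X ^ (a * k) * Y ^ (b * k)) (v' := (X ^ a * Y ^ b) ^ k)
      (by rw [mul_inv_cancel]; exact flat_one) (flat_T X Y a b k)
    rw [mul_inv_cancel, h.one, zero_add, ih] at h2
    rw [h2]
    have h3 : lam (X ^ (a * k) * Y ^ b * (X ^ (a * k))⁻¹ * (Y ^ b)⁻¹) =
        (a * k) * (b * om lam X Y) := by
      have e1 := om_pow_left h X (Y ^ b) (a * k)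
      have e2 := om_pow_right h X Y b
      rw [e2] at e1
      push_cast at e1
      exact e1
    rw [h3]
    push_cast
    ring

end

theorem bounded_middle {A G : Type} [Finite A] [Group G] {π : A → G} {lam : G → ℚ} {P : Set G}
    (hP : Cone P) (hlam : IsForm lam) {x y : A} {s : A → ℚ} {g : G → ℚ}
    (hE : Edge π lam x y s g) (c : ℚ) (hc0 : 0 < c) (hc1 : c < 1) :
    ∃ B : ℕ, ∀ w : List A, IsMax π lam P w → (∀ a ∈ w, g (π a) = 1) → (∀ a ∈ w, s a = c) →
      w.length ≤ B := by
  classical
  have hnum : 0 < c.num := Rat.num_pos.2 hc0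
  obtain ⟨v, j, hv, hj, hjv, hc⟩ : ∃ v j : ℕ, 0 < v ∧ 0 < j ∧ j < v ∧ (v : ℚ) * c = j := by
    refine ⟨c.den, c.num.toNat, c.den_pos, by omega, ?_, ?_⟩
    · have h1 : (c.num : ℚ) < c.den := by
        have h2 := Rat.mul_den_eq_num c
        have h3 : (0 : ℚ) < c.den := by exact_mod_cast c.den_pos
        rw [← h2]
        nlinarith
      have h2 : c.num < c.den := by exact_mod_cast h1
      omega
    · have h2 := Rat.mul_den_eq_num c
      have h3 : ((c.num.toNat : ℤ) : ℚ) = (c.num : ℚ) := by
        rw [Int.toNat_of_nonneg hnum.le]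
      rw [mul_comm, h2, ← h3]
      norm_cast
  obtain ⟨a, ha⟩ : ∃ a, a + j = v := ⟨v - j, by omega⟩
  have ha0 : 0 < a := by omega
  set U0 : G := π x ^ a * π y ^ j with hU0
  -- characters on strings with all letters at `c`
  have hchar : ∀ w : List A, (∀ b ∈ w, g (π b) = 1) → (∀ b ∈ w, s b = c) → ∀ f : G → ℚ,
      IsChar f → f (val π w) = w.length * ((1 - c) * f (π x) + c * f (π y)) := by
    intro w
    induction w with
    | nil => intro _ _ f hf; rw [vnil, hf.one]; simp
    | cons b w ih =>
      intro h1 h2 f hf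
      rw [vcons, hf, ih (fun b hb => h1 b (List.mem_cons_of_mem _ hb))
        (fun b hb => h2 b (List.mem_cons_of_mem _ hb)) f hf]
      have h3 := (hE.seg b (h1 b List.mem_cons_self)).2.2 f hf
      rw [h2 b List.mem_cons_self] at h3
      rw [h3, List.length_cons]
      push_cast
      ring
  have haq : (a : ℚ) = v * (1 - c) := by
    have : (a : ℚ) + j = v := by exact_mod_cast ha
    linarith
  -- the blocks
  obtain ⟨C0, hC0⟩ : ∃ C0 : ℚ, ∀ b : List A, b.length = v → lam (val π b * U0⁻¹) ≤ C0 := by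
    have hfin : {b : List A | b.length = v}.Finite := List.finite_length_eq A v
    obtain ⟨C0, hC0⟩ := (hfin.image (fun b => lam (val π b * U0⁻¹))).bddAbove
    exact ⟨C0, fun b hb => hC0 ⟨b, hb, rfl⟩⟩
  have hblocks : ∀ (k : ℕ) (u : List A), u.length = v * k → (∀ b ∈ u, g (π b) = 1) →
      (∀ b ∈ u, s b = c) → Flat (val π u * (U0 ^ k)⁻¹) ∧ lam (val π u * (U0 ^ k)⁻¹) ≤ k * C0 := by
    intro k
    induction k with
    | zero =>
      intro u hu _ _
      rw [mul_zero, List.length_eq_zero_iff] at hu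
      subst hu
      simp only [vnil, pow_zero, inv_one, mul_one, Nat.cast_zero, zero_mul]
      exact ⟨flat_one, hlam.one.le⟩
    | succ k ih =>
      intro u hu h1 h2
      have hb : (u.take v).length = v := by
        rw [List.length_take, hu]
        apply min_eq_left
        nlinarith [Nat.zero_le (v * k)]
      have hd : (u.drop v).length = v * k := by
        rw [List.length_drop, hu, mul_add, mul_one]
        omega
      have mt : ∀ b ∈ u.take v, b ∈ u := fun b hb => List.mem_of_mem_take hb
      have md : ∀ b ∈ u.drop v, b ∈ u := fun b hb => List.mem_of_mem_drop hb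
      obtain ⟨i1, i2⟩ := ih (u.drop v) hd (fun b hb => h1 b (md b hb)) (fun b hb => h2 b (md b hb))
      have f1 : Flat (val π (u.take v) * U0⁻¹) := by
        apply flat_of_eq
        intro f hf
        rw [hchar _ (fun b hb => h1 b (mt b hb)) (fun b hb => h2 b (mt b hb)) f hf, hb, hU0, hf,
          hf.pow, hf.pow, haq, ← hc]
        ring
      have e : val π u = val π (u.take v) * val π (u.drop v) := by
        rw [← vapp, List.take_append_drop]
      rw [e, pow_succ']
      constructor
      · have e2 : val π (u.take v) * val π (u.drop v) * (U0 * U0 ^ k)⁻¹ =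
            (val π (u.take v) * (val π (u.drop v) * (U0 ^ k)⁻¹) * (val π (u.take v))⁻¹) *
              (val π (u.take v) * U0⁻¹) := by group
        rw [e2]
        exact (i1.conj _).mul f1
      · rw [lam_mul_mul hlam f1 i1]
        have := hC0 _ hb
        push_cast
        linarith
  have hom := hE.pos
  have ha1 : (0 : ℚ) < a := by exact_mod_cast ha0
  have hj1 : (0 : ℚ) < j := by exact_mod_cast hj
  have hpos : (0 : ℚ) < a * j * om lam (π x) (π y) := by positivity
  obtain ⟨k, hk⟩ := exists_nat_gt (2 * C0 / (a * j * om lam (π x) (π y)) + 1)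
  have hk2 : C0 < (a * j * om lam (π x) (π y)) * ((k - 1) / 2) := by
    have h1 : 2 * C0 / (a * j * om lam (π x) (π y)) < k - 1 := by linarith
    rw [div_lt_iff₀ hpos] at h1
    linarith
  refine ⟨v * (k + 1), fun w hw h1 h2 => ?_⟩
  by_contra hlen
  push Not at hlen
  set u := w.take (v * (k + 1)) with hu
  have hul : u.length = v * (k + 1) := by
    rw [hu, List.length_take]
    exact min_eq_left hlen.le
  have mt : ∀ b ∈ u, b ∈ w := fun b hb => List.mem_of_mem_take hb
  obtain ⟨i1, i2⟩ := hblocks (k + 1) u hul (fun b hb => h1 b (mt b hb)) (fun b hb => h2 b (mt b hb))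
  set u' : List A := List.replicate (a * (k + 1)) x ++ List.replicate (j * (k + 1)) y with hu'
  have hu'l : u'.length = v * (k + 1) := by
    rw [hu', List.length_append, List.length_replicate, List.length_replicate, ← ha]
    ring
  have hu'v : val π u' = π x ^ (a * (k + 1)) * π y ^ (j * (k + 1)) := by
    rw [hu', vapp, val_replicate, val_replicate]
  have f3 : Flat (val π u' * (U0 ^ (k + 1))⁻¹) := by
    rw [hu'v]
    exact flat_T _ _ _ _ _
  have l3 := lam_T hlam (π x) (π y) a j (k + 1)
  rw [← hU0, ← hu'v] at l3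
  have f4 := flat_symm i1
  have l4 : lam (U0 ^ (k + 1) * (val π u)⁻¹) = - lam (val π u * (U0 ^ (k + 1))⁻¹) := by
    rw [← hlam.inv i1]
    congr 1
    group
  have l5 := lam_trans hlam f3 f4
  have f5 := flat_trans f3 f4
  apply hw (u' ++ w.drop (v * (k + 1)))
  · rw [List.length_append, List.length_drop, hu'l]
    omega
  · have e : val π (u' ++ w.drop (v * (k + 1))) * (val π w)⁻¹ = val π u' * (val π u)⁻¹ := by
      have e1 : val π w = val π u * val π (w.drop (v * (k + 1))) := by
        rw [← vapp, hu, List.take_append_drop]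
      rw [e1, vapp]
      group
    rw [e]
    refine ⟨f5, Or.inl ?_⟩
    rw [l5, l3, l4]
    push_cast at i2 ⊢
    have hk0 : (0 : ℚ) ≤ k := Nat.cast_nonneg k
    have h6 : ((k : ℚ) + 1) * C0 < a * j * (((k : ℚ) + 1) * ((k : ℚ) + 1 - 1) / 2) *
        om lam (π x) (π y) := by
      have h7 : C0 < (a * j * om lam (π x) (π y)) * ((k : ℚ) / 2) := by
        nlinarith
      have h8 : (0 : ℚ) < (k : ℚ) + 1 := by linarith
      have h9 := mul_lt_mul_of_pos_left h7 h8
      calc ((k : ℚ) + 1) * C0 < ((k : ℚ) + 1) * ((a * j * om lam (π x) (π y)) * ((k : ℚ) / 2)) := h9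
        _ = _ := by ring
    linarith

end Pool.Agent.SLN
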