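import Mathlib
import Pool.Agent.SLN.Basic
/-!
# Maximal strings
-/
namespace Pool.Agent.SLN
open Pool.Agent.SLX (val)

variable {A G : Type} [Group G] {π : A → G} {lam : G → ℚ} {P : Set G}

theorem IsMax.factor (hP : Cone P) (hlam : IsForm lam) {p w q : List A}
    (h : IsMax π lam P (p ++ w ++ q)) : IsMax π lam P w := by
  intro w' hl hu
  apply h (p ++ w' ++ q)
  · simp only [List.length_append]
    omega
  · have e : val π (p ++ w' ++ q) * (val π (p ++ w ++ q))⁻¹ =
        val π p * (val π w' * (val π w)⁻¹) * (val π p)⁻¹ := by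
      simp only [vapp]
      group
    rw [e]
    exact hu.conj hP hlam _

theorem IsMax.of_val {w v : List A} (h : IsMax π lam P w) (hv : val π v = val π w)
    (hl : v.length ≤ w.length) : IsMax π lam P v := by
  intro w' hw' hu
  rw [hv] at hu
  exact h w' (hw'.trans hl) hu

theorem exists_isMax [Finite A] (hP : Cone P) (hlam : IsForm lam) (w : List A) :
    ∃ v : List A, v.length ≤ w.length ∧ Flat (val π v * (val π w)⁻¹) ∧ IsMax π lam P v := by
  let S : Set (List A) := {v | v.length ≤ w.length ∧ Flat (val π v * (val π w)⁻¹)}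
  have hS : S.Finite := (List.finite_length_le A w.length).subset (fun v hv => hv.1)
  let rel : List A → List A → Prop := fun v' v => Up lam P (val π v' * (val π v)⁻¹)
  have hst : IsStrictOrder (List A) rel :=
    { irrefl := by
        intro v hv
        have h1 : Up lam P (val π v * (val π v)⁻¹) := hv
        rw [mul_inv_cancel] at h1
        exact h1.not_tors hP hlam IsOfFinOrder.one
      trans := by
        intro a b c hab hbc
        have h1 := Up.mul hP hlam (show Up lam P (val π a * (val π b)⁻¹) from hab)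
          (show Up lam P (val π b * (val π c)⁻¹) from hbc)
        rw [show val π a * (val π b)⁻¹ * (val π b * (val π c)⁻¹) = val π a * (val π c)⁻¹ by group] at h1
        exact h1 }
  have hwf : S.WellFoundedOn rel := hS.wellFoundedOn
  have hw : w ∈ S := by
    refine ⟨le_refl _, ?_⟩
    rw [mul_inv_cancel]
    exact flat_one
  obtain ⟨⟨v, hv⟩, _, hmin⟩ := hwf.has_min (Set.univ : Set S) ⟨⟨w, hw⟩, trivial⟩
  refine ⟨v, hv.1, hv.2, ?_⟩
  intro w' hl hu
  refine hmin ⟨w', hl.trans hv.1, ?_⟩ trivial hu
  exact flat_trans hu.1 hv.2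

theorem LM_of_isMax (hP : Cone P) (hlam : IsForm lam) {x : A} {w : List A}
    (h : IsMax π lam P w) (hw : ∀ a ∈ w, SameC π a x) : ∀ a ∈ w, LM π lam P x a := by
  intro a ha
  refine ⟨hw a ha, ?_⟩
  obtain ⟨p, q, hpq⟩ := List.append_of_mem ha
  have h1 : IsMax π lam P [a] := by
    apply IsMax.factor (p := p) (q := q) hP hlam
    rw [List.append_assoc, List.singleton_append, ← hpq]
    exact h
  intro b _ hu
  apply h1 [b] (by simp)
  simpa [val] using hu

private theorem up_one (hP : Cone P) (hlam : IsForm lam) : ¬ Up lam P (1 : G) :=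
  fun h => h.not_tors hP hlam IsOfFinOrder.one

private theorem notUp_mul (hP : Cone P) (hlam : IsForm lam)
    (h1 : ∀ g h : G, IsOfFinOrder g → IsOfFinOrder h → IsOfFinOrder (g * h))
    {m n : G} (fm : Flat m) (fn : Flat n) (hm : ¬ Up lam P m) (hn : ¬ Up lam P n) :
    ¬ Up lam P (m * n) := by
  intro h
  rcases Up.total hP hlam fm with h2 | h2 | h2
  · exact hm h2
  · rcases Up.total hP hlam fn with h3 | h3 | h3
    · exact hn h3
    · have h4 := (h.mul hP hlam h3).mul hP hlam h2
      rw [mul_inv_cancel_right, mul_inv_cancel] at h4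
      exact up_one hP hlam h4
    · have h4 := h2.mul hP hlam h
      rw [inv_mul_cancel_left] at h4
      exact hn h4
  · rcases Up.total hP hlam fn with h3 | h3 | h3
    · exact hn h3
    · have h4 := h.mul hP hlam h3
      rw [mul_inv_cancel_right] at h4
      exact hm h4
    · exact h.not_tors hP hlam (h1 _ _ h2 h3)

private theorem notUp_conj (hP : Cone P) (hlam : IsForm lam) {m : G} (hm : ¬ Up lam P m)
    (x : G) : ¬ Up lam P (x * m * x⁻¹) := by
  intro h
  have h2 := h.conj hP hlam x⁻¹
  have e : x⁻¹ * (x * m * x⁻¹) * x⁻¹⁻¹ = m := by group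
  rw [e] at h2
  exact hm h2

private theorem flat_of_same {x : A} : ∀ w' w : List A, w'.length = w.length →
    (∀ a ∈ w', SameC π a x) → (∀ a ∈ w, SameC π a x) → Flat (val π w' * (val π w)⁻¹) := by
  intro w'
  induction w' with
  | nil =>
    intro w hl _ _
    rw [List.length_nil] at hl
    rw [List.eq_nil_of_length_eq_zero hl.symm, vnil, inv_one, mul_one]
    exact flat_one
  | cons b w1' ih =>
    intro w hl h1 h2
    cases w with
    | nil => simp at hl
    | cons a w1 =>
      rw [vcons, vcons]
      have h3 := ih w1 (by simpa using hl) (fun c hc => h1 c (List.mem_cons_of_mem _ hc))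
        (fun c hc => h2 c (List.mem_cons_of_mem _ hc))
      have h4 : Flat (π b * (π a)⁻¹) := by
        apply flat_of_eq
        intro f hf
        rw [h1 b List.mem_cons_self f hf, h2 a List.mem_cons_self f hf]
      have e : π b * val π w1' * (π a * val π w1)⁻¹ =
          (π b * (val π w1' * (val π w1)⁻¹) * (π b)⁻¹) * (π b * (π a)⁻¹) := by group
      rw [e]
      exact (h3.conj _).mul h4

private theorem notUp_of_LM (hP : Cone P) (hlam : IsForm lam)
    (h1 : ∀ g h : G, IsOfFinOrder g → IsOfFinOrder h → IsOfFinOrder (g * h)) {x : A} :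
    ∀ w' w : List A, w'.length = w.length →
    (∀ a ∈ w', SameC π a x) → (∀ a ∈ w, LM π lam P x a) →
      ¬ Up lam P (val π w' * (val π w)⁻¹) := by
  intro w'
  induction w' with
  | nil =>
    intro w hl _ _
    rw [List.length_nil] at hl
    rw [List.eq_nil_of_length_eq_zero hl.symm, vnil, inv_one, mul_one]
    exact up_one hP hlam
  | cons b w1' ih =>
    intro w hl h2 h3
    cases w with
    | nil => simp at hl
    | cons a w1 =>
      rw [vcons, vcons]
      have hl' : w1'.length = w1.length := by simpa using hl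
      have h5 := ih w1 hl' (fun c hc => h2 c (List.mem_cons_of_mem _ hc))
        (fun c hc => h3 c (List.mem_cons_of_mem _ hc))
      have h6 := flat_of_same (π := π) (x := x) w1' w1 hl'
        (fun c hc => h2 c (List.mem_cons_of_mem _ hc))
        (fun c hc => (h3 c (List.mem_cons_of_mem _ hc)).1)
      have h4 : Flat (π b * (π a)⁻¹) := by
        apply flat_of_eq
        intro f hf
        rw [h2 b List.mem_cons_self f hf, (h3 a List.mem_cons_self).1 f hf]
      have e : π b * val π w1' * (π a * val π w1)⁻¹ =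
          (π b * (val π w1' * (val π w1)⁻¹) * (π b)⁻¹) * (π b * (π a)⁻¹) := by group
      rw [e]
      exact notUp_mul hP hlam h1 (h6.conj _) h4 (notUp_conj hP hlam h5 _)
        ((h3 a List.mem_cons_self).2 b (h2 b List.mem_cons_self))

theorem isMax_of_LM (hP : Cone P) (hlam : IsForm lam)
    (h1 : ∀ g h : G, IsOfFinOrder g → IsOfFinOrder h → IsOfFinOrder (g * h))
    {x : A} (hx : Vert π x) {w : List A} (hw : ∀ a ∈ w, LM π lam P x a) : IsMax π lam P w := by
  intro w' hl hu
  obtain ⟨f, hf, hfx, hf1, hfs⟩ := hx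
  have h2 : f (val π w) = w.length := by
    apply hf.val_of_one
    intro a ha
    rw [(hw a ha).1 f hf, hfx]
  have h3 : f (val π w') = f (val π w) := hu.1.eq hf
  have h4 := hf.val_le hf1 w'
  have h5 : w.length ≤ w'.length := by
    have : (w.length : ℚ) ≤ w'.length := by rw [← h2, ← h3]; exact h4
    exact_mod_cast this
  have h6 : w'.length = w.length := le_antisymm hl h5
  have h7 := hf.all_one hf1 (w := w') (by rw [h3, h2, h6])
  exact notUp_of_LM hP hlam h1 w' w h6 (fun a ha => hfs a (h7 a ha)) hw hu

/-- Powers of two strings over the maximal letters at a vertex: some powers are equal. -/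
theorem lpow_eq {L : List A → Prop} (hL : GoodLang π L) (hP : Cone P) (hlam : IsForm lam)
    (h1 : ∀ g h : G, IsOfFinOrder g → IsOfFinOrder h → IsOfFinOrder (g * h))
    (h3 : ∀ g h : G, IsOfFinOrder (g * h⁻¹) → ∃ e, 0 < e ∧ g ^ e = h ^ e)
    {x : A} (hx : Vert π x) {r t : List A} (hr : r ≠ []) (ht : t ≠ [])
    (hr' : ∀ a ∈ r, LM π lam P x a) (ht' : ∀ a ∈ t, LM π lam P x a)
    (hrL : ∀ k, L (lpow r k)) (htL : ∀ k, L (lpow t k)) :
    ∃ K K', 0 < K ∧ 0 < K' ∧ lpow r K = lpow t K' := by
  have hrp : 0 < r.length := List.length_pos_iff.2 hr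
  have htp : 0 < t.length := List.length_pos_iff.2 ht
  have hl : (lpow r t.length).length = (lpow t r.length).length := by
    rw [length_lpow, length_lpow, mul_comm]
  have hu : ∀ a ∈ lpow r t.length, LM π lam P x a := fun a ha => hr' a (mem_lpow ha)
  have hv : ∀ a ∈ lpow t r.length, LM π lam P x a := fun a ha => ht' a (mem_lpow ha)
  have hfl := flat_of_same (π := π) (x := x) _ _ hl (fun a ha => (hu a ha).1)
    (fun a ha => (hv a ha).1)
  have hn1 := notUp_of_LM hP hlam h1 _ _ hl (fun a ha => (hu a ha).1) hv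
  have hn2 := notUp_of_LM hP hlam h1 _ _ hl.symm (fun a ha => (hv a ha).1) hu
  have hfin : IsOfFinOrder (val π (lpow r t.length) * (val π (lpow t r.length))⁻¹) := by
    rcases Up.total hP hlam hfl with h | h | h
    · exact absurd h hn1
    · rw [mul_inv_rev, inv_inv] at h
      exact absurd h hn2
    · exact h
  obtain ⟨e, he, hee⟩ := h3 _ _ hfin
  refine ⟨t.length * e, r.length * e, Nat.mul_pos htp he, Nat.mul_pos hrp he, ?_⟩
  apply hL.uniq _ _ (hrL _) (htL _)
  rw [lpow_mul, lpow_mul, vlpow, vlpow π (lpow t r.length), hee]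

end Pool.Agent.SLN
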