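import Mathlib
import Pool.Agent.SLN.MaxB
import Pool.Agent.SLN.Corner1
import Pool.Agent.SLN.Corner2
/-!
# Corners
-/
namespace Pool.Agent.SLN
open Pool.Agent.SLX (val)

private theorem sorted_split {A : Type} {s : A → ℚ} {p : A → Bool}
    (hp : ∀ a b, s a ≤ s b → p b = true → p a = true) {w : List A}
    (h : w.Pairwise (fun a b => s a ≤ s b)) : w = w.filter p ++ w.filter (fun a => !p a) := by
  induction w with
  | nil => simp
  | cons a w ih =>
    rw [List.pairwise_cons] at h
    by_cases ha : p a = true
    · rw [List.filter_cons_of_pos ha, List.filter_cons_of_neg (by simp [ha]), List.cons_append,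
        ← ih h.2]
    · have h1 : w.filter p = [] := by
        rw [List.filter_eq_nil_iff]
        intro b hb hpb
        exact ha (hp a b (h.1 b hb) hpb)
      have h2 : w.filter (fun a => !p a) = w := by
        rw [List.filter_eq_self]
        intro b hb
        by_contra hpb
        have : p b = true := by simpa using hpb
        exact ha (hp a b (h.1 b hb) this)
      rw [List.filter_cons_of_neg ha, h1, List.filter_cons_of_pos (by simpa using ha), h2,
        List.nil_append]

private theorem len_filter {A : Type} (s : A → ℚ) (C : Finset ℚ) (w : List A) :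
    (w.filter (fun a => decide (s a ∈ C))).length =
      ∑ c ∈ C, (w.filter (fun a => decide (s a = c))).length := by
  induction w with
  | nil => simp
  | cons a w ih =>
    have key : ∀ c, ((a :: w).filter (fun a => decide (s a = c))).length =
        (if s a = c then 1 else 0) + (w.filter (fun a => decide (s a = c))).length := by
      intro c
      by_cases h : s a = c
      · rw [List.filter_cons_of_pos (by simpa using h), List.length_cons, if_pos h, add_comm]
      · rw [List.filter_cons_of_neg (by simpa using h), if_neg h, zero_add]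
    rw [Finset.sum_congr rfl (fun c _ => key c), Finset.sum_add_distrib, Finset.sum_ite_eq, ← ih]
    by_cases h : s a ∈ C
    · rw [List.filter_cons_of_pos (by simpa using h), List.length_cons, if_pos h, add_comm]
    · rw [List.filter_cons_of_neg (by simpa using h), if_neg h, zero_add]

theorem exists_corner {A G : Type} [Finite A] [Group G] {π : A → G} {L : List A → Prop}
    (hL : GoodLang π L) {lam : G → ℚ} {P : Set G}
    (hP : Cone P) (hlam : IsForm lam) {x y : A} {s : A → ℚ} {g : G → ℚ}
    (hE : Edge π lam x y s g) :
    ∀ m : ℕ, ∃ α β γ : List A, L (α ++ β ++ γ) ∧ IsMax π lam P (α ++ β ++ γ) ∧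
      (∀ a ∈ α, SameC π a x) ∧ (∀ a ∈ γ, SameC π a y) ∧ m ≤ α.length ∧ m ≤ γ.length := by
  classical
  have : Fintype A := Fintype.ofFinite A
  -- the values inside the edge
  let C : Finset ℚ := (Finset.univ.image s).filter (fun c => 0 < c ∧ c < 1)
  have hB : ∀ c : ℚ, ∃ B : ℕ, (0 < c ∧ c < 1) → ∀ w : List A, IsMax π lam P w →
      (∀ a ∈ w, g (π a) = 1) → (∀ a ∈ w, s a = c) → w.length ≤ B := by
    intro c
    by_cases hc : 0 < c ∧ c < 1
    · obtain ⟨B, hB⟩ := bounded_middle hP hlam hE c hc.1 hc.2
      exact ⟨B, fun _ => hB⟩
    · exact ⟨0, fun h => absurd h hc⟩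
  choose Bf hBf using hB
  intro m
  set B : ℕ := ∑ c ∈ C, Bf c with hBdef
  set M : ℕ := m + B with hM
  set w : List A := List.replicate M x ++ List.replicate M y with hw
  have hval : ∀ f : G → ℚ, IsChar f → f (val π w) = M * f (π x) + M * f (π y) := by
    intro f hf
    rw [hw, vapp, hf, hf.val, hf.val, List.map_replicate, List.map_replicate, List.sum_replicate,
      List.sum_replicate, nsmul_eq_mul, nsmul_eq_mul]
  have hwl : w.length = 2 * M := by
    rw [hw, List.length_append, List.length_replicate, List.length_replicate]
    ring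
  obtain ⟨v, hvl, hvf, hvm⟩ := exists_isMax hP hlam (π := π) w
  obtain ⟨v0, hv0L, hv0v, hv0l⟩ := hL.nf v
  have hmax : IsMax π lam P v0 := hvm.of_val hv0v hv0l
  have hchar : ∀ f : G → ℚ, IsChar f → f (val π v0) = M * f (π x) + M * f (π y) := by
    intro f hf
    rw [hv0v, hvf.eq hf, hval f hf]
  have hg0 : g (val π v0) = 2 * M := by
    rw [hchar g hE.char, hE.gx, hE.gy]
    ring
  have hlen1 : (v0.length : ℚ) ≤ g (val π v0) := by
    rw [hg0]
    have : v0.length ≤ 2 * M := by omega
    exact_mod_cast this
  have h1 := hE.char.all_one hE.le hlen1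
  have hlen2 : v0.length = 2 * M := by
    have h2 := hE.char.val_of_one h1
    rw [hg0] at h2
    exact_mod_cast h2.symm
  have hsort := sorted_of_isMax hlam hE hmax h1
  -- the sum of the parameters
  have hsum : (v0.map s).sum = M := by
    have h2 := hchar _ (isChar_om hlam (π x))
    rw [om_self hlam, mul_zero, zero_add, (isChar_om hlam (π x)).val] at h2
    have h3 : (v0.map (fun a => om lam (π x) (π a))).sum =
        (v0.map s).sum * om lam (π x) (π y) := by
      have : ∀ u : List A, (∀ a ∈ u, g (π a) = 1) →
          (u.map (fun a => om lam (π x) (π a))).sum = (u.map s).sum * om lam (π x) (π y) := by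
        intro u
        induction u with
        | nil => intro _; simp
        | cons a u ih =>
          intro hu
          have h4 := (hE.seg a (hu a List.mem_cons_self)).2.2 _ (isChar_om hlam (π x))
          rw [om_self hlam, mul_zero, zero_add] at h4
          rw [List.map_cons, List.sum_cons, List.map_cons, List.sum_cons,
            ih (fun b hb => hu b (List.mem_cons_of_mem _ hb)), h4]
          ring
      exact this v0 h1
    rw [h3] at h2
    exact mul_right_cancel₀ hE.pos.ne' h2
  -- the three parts
  have hp0 : ∀ t : ℚ, ∀ a b : A, s a ≤ s b → decide (s b ≤ t) = true → decide (s a ≤ t) = true := by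
    intro t a b hab hb
    simp only [decide_eq_true_eq] at hb ⊢
    exact hab.trans hb
  have hp1 : ∀ t : ℚ, ∀ a b : A, s a ≤ s b → decide (s b < t) = true → decide (s a < t) = true := by
    intro t a b hab hb
    simp only [decide_eq_true_eq] at hb ⊢
    exact hab.trans_lt hb
  set α := v0.filter (fun a => decide (s a ≤ 0)) with hα
  set R := v0.filter (fun a => !decide (s a ≤ 0)) with hR
  set β := R.filter (fun a => decide (s a < 1)) with hβ
  set γ := R.filter (fun a => !decide (s a < 1)) with hγ
  have e1 : v0 = α ++ R := sorted_split (hp0 0) hsort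
  have hRsort : R.Pairwise (fun a b => s a ≤ s b) := hsort.filter _
  have e2 : R = β ++ γ := sorted_split (hp1 1) hRsort
  have e3 : v0 = α ++ β ++ γ := by rw [List.append_assoc, ← e2, ← e1]
  have mα : ∀ a ∈ α, a ∈ v0 ∧ s a = 0 := by
    intro a ha
    rw [hα, List.mem_filter, decide_eq_true_eq] at ha
    exact ⟨ha.1, le_antisymm ha.2 (hE.seg a (h1 a ha.1)).1⟩
  have mγ : ∀ a ∈ γ, a ∈ v0 ∧ s a = 1 := by
    intro a ha
    rw [hγ, List.mem_filter, hR, List.mem_filter] at ha
    have h2 : ¬ s a < 1 := by simpa using ha.2
    exact ⟨ha.1.1, le_antisymm (hE.seg a (h1 a ha.1.1)).2.1 (not_lt.1 h2)⟩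
  have mβ : ∀ a ∈ β, a ∈ v0 ∧ 0 < s a ∧ s a < 1 := by
    intro a ha
    rw [hβ, List.mem_filter, hR, List.mem_filter] at ha
    have h2 : ¬ s a ≤ 0 := by simpa using ha.1.2
    have h3 : s a < 1 := by simpa using ha.2
    exact ⟨ha.1.1, not_le.1 h2, h3⟩
  -- the middle part is short
  have hβl : β.length ≤ B := by
    have h2 : β = v0.filter (fun a => decide (s a ∈ C)) := by
      rw [hβ, hR, List.filter_filter]
      apply List.filter_congr
      intro a ha
      have h3 : s a ∈ C ↔ 0 < s a ∧ s a < 1 := by
        simp [C]
      by_cases h4 : s a ≤ 0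
      · have : ¬ s a ∈ C := fun h5 => absurd (h3.1 h5).1 (not_lt.2 h4)
        simp [h4, this]
      · by_cases h5 : s a < 1
        · have : s a ∈ C := h3.2 ⟨not_le.1 h4, h5⟩
          simp [h4, h5, this]
        · have : ¬ s a ∈ C := fun h6 => absurd (h3.1 h6).2 h5
          simp [h5, this]
    rw [h2, len_filter s C v0, hBdef]
    apply Finset.sum_le_sum
    intro c hc
    have hc' : 0 < c ∧ c < 1 := (Finset.mem_filter.1 hc).2
    have e4 : v0 = v0.filter (fun a => decide (s a < c)) ++
        v0.filter (fun a => decide (s a = c)) ++
        (v0.filter (fun a => !decide (s a < c))).filter (fun a => !decide (s a ≤ c)) := by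
      have e5 := sorted_split (hp1 c) hsort
      have e6 := sorted_split (hp0 c) (hsort.filter (fun a => !decide (s a < c)))
      have e7 : (v0.filter (fun a => !decide (s a < c))).filter (fun a => decide (s a ≤ c)) =
          v0.filter (fun a => decide (s a = c)) := by
        rw [List.filter_filter]
        apply List.filter_congr
        intro a ha
        rcases lt_trichotomy (s a) c with h5 | h5 | h5
        · simp [h5, h5.ne]
        · simp [h5]
        · simp [h5.ne', not_le.2 h5]
      rw [e7] at e6
      rw [List.append_assoc, ← e6]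
      exact e5
    apply hBf c hc'
    · rw [e4] at hmax
      exact hmax.factor hP hlam
    · intro a ha
      exact h1 a (List.mem_filter.1 ha).1
    · intro a ha
      have := (List.mem_filter.1 ha).2
      simpa using this
  -- counting
  have hs0 : (α.map s).sum = 0 := by
    have : ∀ u : List A, (∀ a ∈ u, s a = 0) → (u.map s).sum = 0 := by
      intro u
      induction u with
      | nil => intro _; simp
      | cons a u ih =>
        intro hu
        rw [List.map_cons, List.sum_cons, ih (fun b hb => hu b (List.mem_cons_of_mem _ hb)),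
          hu a List.mem_cons_self, add_zero]
    exact this α (fun a ha => (mα a ha).2)
  have hs1 : (γ.map s).sum = γ.length := by
    have : ∀ u : List A, (∀ a ∈ u, s a = 1) → (u.map s).sum = u.length := by
      intro u
      induction u with
      | nil => intro _; simp
      | cons a u ih =>
        intro hu
        rw [List.map_cons, List.sum_cons, ih (fun b hb => hu b (List.mem_cons_of_mem _ hb)),
          hu a List.mem_cons_self, List.length_cons]
        push_cast
        ring
    exact this γ (fun a ha => (mγ a ha).2)
  have hsβ : 0 ≤ (β.map s).sum ∧ (β.map s).sum ≤ β.length := by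
    have : ∀ u : List A, (∀ a ∈ u, 0 < s a ∧ s a < 1) →
        0 ≤ (u.map s).sum ∧ (u.map s).sum ≤ u.length := by
      intro u
      induction u with
      | nil => intro _; simp
      | cons a u ih =>
        intro hu
        have h2 := ih (fun b hb => hu b (List.mem_cons_of_mem _ hb))
        have h3 := hu a List.mem_cons_self
        rw [List.map_cons, List.sum_cons, List.length_cons]
        push_cast
        constructor
        · linarith [h2.1, h3.1]
        · linarith [h2.2, h3.2]
    exact this β (fun a ha => (mβ a ha).2)
  have hsum' : (β.map s).sum + γ.length = M := by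
    have h2 := hsum
    rw [e3, List.map_append, List.map_append, List.sum_append, List.sum_append, hs0, hs1] at h2
    linarith
  have hγ1 : γ.length ≤ M := by
    have : (γ.length : ℚ) ≤ M := by linarith [hsβ.1]
    exact_mod_cast this
  have hγ2 : M ≤ β.length + γ.length := by
    have : (M : ℚ) ≤ β.length + γ.length := by linarith [hsβ.2]
    exact_mod_cast this
  have hlen3 : α.length + β.length + γ.length = 2 * M := by
    rw [← hlen2]
    conv_rhs => rw [e3]
    rw [List.length_append, List.length_append]
  refine ⟨α, β, γ, ?_, ?_, ?_, ?_, ?_, ?_⟩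
  · rw [← e3]; exact hv0L
  · rw [← e3]; exact hmax
  · intro a ha f hf
    have h2 := (hE.seg a (h1 a (mα a ha).1)).2.2 f hf
    rw [(mα a ha).2] at h2
    rw [h2]
    ring
  · intro a ha f hf
    have h2 := (hE.seg a (h1 a (mγ a ha).1)).2.2 f hf
    rw [(mγ a ha).2] at h2
    rw [h2]
    ring
  · omega
  · omega

end Pool.Agent.SLN
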