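import Mathlib
import Pool.Agent.SLN.Basic
/-!
# A free submonoid in the language
-/
namespace Pool.Agent.SLN
open Pool.Agent.SLX (val)

/-- The string of blocks. -/
private def blk {A : Type} (U V : List A) : List Bool → List A
  | [] => []
  | b :: bs => (if b then U else V) ++ blk U V bs

private theorem blk_app {A : Type} (U V : List A) (s t : List Bool) :
    blk U V (s ++ t) = blk U V s ++ blk U V t := by
  induction s with
  | nil => simp [blk]
  | cons b s ih => simp [blk, ih, List.append_assoc]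

private theorem blk_lpow {A : Type} (U V : List A) (s : List Bool) (j : ℕ) :
    blk U V (lpow s j) = lpow (blk U V s) j := by
  induction j with
  | zero => simp [blk, lpow]
  | succ j ih => rw [lpow, lpow, blk_app, ih]

private theorem blk_tmL {A : Type} (U V : List A) (n : ℕ) (s t : List Bool) :
    blk U V (tmL n s t) = tmL n (blk U V s) (blk U V t) := by
  induction n generalizing s t with
  | zero => rfl
  | succ n ih => rw [tmL, tmL, blk_app, ih, ih]

private theorem blk_L {A : Type} {L : List A → Prop}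
    (hf : ∀ p w q : List A, L (p ++ w ++ q) → L w) {N : ℕ}
    (hN : ∀ u s w : List A, N ≤ s.length → L (u ++ s) → L (s ++ w) → L (u ++ s ++ w))
    {r β : List A} (hr : r ≠ []) (h : ∀ k, L (lpow r k ++ β ++ lpow r k)) {K : ℕ} (hK : N ≤ K)
    (bs : List Bool) :
    L (blk (lpow r K ++ β) (lpow r (2 * K) ++ β) bs ++ lpow r K) ∧
      ∃ w, blk (lpow r K ++ β) (lpow r (2 * K) ++ β) bs ++ lpow r K = lpow r K ++ w := by
  have hrp : 0 < r.length := List.length_pos_iff.2 hr
  have hlen : N ≤ (lpow r K).length := by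
    rw [length_lpow]
    nlinarith
  have hU : L ((lpow r K ++ β) ++ lpow r K) := h K
  have hV : L ((lpow r (2 * K) ++ β) ++ lpow r K) := by
    apply hf [] _ (lpow r K)
    have h1 := h (2 * K)
    have e : lpow r (2 * K) = lpow r K ++ lpow r K := by rw [two_mul, lpow_add]
    have e2 : [] ++ ((lpow r (2 * K) ++ β) ++ lpow r K) ++ lpow r K =
        lpow r (2 * K) ++ β ++ lpow r (2 * K) := by
      rw [List.nil_append, List.append_assoc (lpow r (2 * K) ++ β), ← e]
    rw [e2]
    exact h1
  induction bs with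
  | nil =>
    refine ⟨?_, [], ?_⟩
    · apply hf (lpow r K ++ β) _ []
      simpa [blk] using hU
    · simp [blk]
  | cons b bs ih =>
    obtain ⟨ih1, w, ih2⟩ := ih
    cases b with
    | true =>
      refine ⟨?_, β ++ (blk (lpow r K ++ β) (lpow r (2 * K) ++ β) bs ++ lpow r K), ?_⟩
      · show L (((lpow r K ++ β) ++ blk (lpow r K ++ β) (lpow r (2 * K) ++ β) bs) ++ lpow r K)
        rw [List.append_assoc (lpow r K ++ β), ih2, ← List.append_assoc]
        exact hN _ _ _ hlen hU (ih2 ▸ ih1)
      · show ((lpow r K ++ β) ++ blk (lpow r K ++ β) (lpow r (2 * K) ++ β) bs) ++ lpow r K = _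
        simp only [List.append_assoc]
    | false =>
      refine ⟨?_, lpow r K ++ β ++
        (blk (lpow r K ++ β) (lpow r (2 * K) ++ β) bs ++ lpow r K), ?_⟩
      · show L (((lpow r (2 * K) ++ β) ++ blk (lpow r K ++ β) (lpow r (2 * K) ++ β) bs) ++
          lpow r K)
        rw [List.append_assoc (lpow r (2 * K) ++ β), ih2, ← List.append_assoc]
        exact hN _ _ _ hlen hV (ih2 ▸ ih1)
      · show ((lpow r (2 * K) ++ β) ++ blk (lpow r K ++ β) (lpow r (2 * K) ++ β) bs) ++
          lpow r K = _
        rw [two_mul, lpow_add]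
        simp only [List.append_assoc]

theorem tmL_mem {A : Type} {L : List A → Prop}
    (hf : ∀ p w q : List A, L (p ++ w ++ q) → L w)
    (hg : ∃ N : ℕ, ∀ u s w : List A, N ≤ s.length → L (u ++ s) → L (s ++ w) → L (u ++ s ++ w))
    {r β : List A} (hr : r ≠ []) (h : ∀ k, L (lpow r k ++ β ++ lpow r k)) :
    ∃ K, 0 < K ∧ ∀ n j, L (lpow (tmL n (lpow r K ++ β) (lpow r (2 * K) ++ β)) j) ∧
      L (lpow (tmL n (lpow r (2 * K) ++ β) (lpow r K ++ β)) j) := by
  obtain ⟨N, hN⟩ := hg
  refine ⟨N + 1, Nat.succ_pos N, ?_⟩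
  intro n j
  have key : ∀ bs : List Bool,
      L (blk (lpow r (N + 1) ++ β) (lpow r (2 * (N + 1)) ++ β) bs) := by
    intro bs
    have h1 := (blk_L hf hN hr h (Nat.le_succ N) bs).1
    exact hf [] _ (lpow r (N + 1)) (by simpa using h1)
  have b1 : blk (lpow r (N + 1) ++ β) (lpow r (2 * (N + 1)) ++ β) [true] =
      lpow r (N + 1) ++ β := by simp [blk]
  have b2 : blk (lpow r (N + 1) ++ β) (lpow r (2 * (N + 1)) ++ β) [false] =
      lpow r (2 * (N + 1)) ++ β := by simp [blk]
  constructor
  · have h1 := key (lpow (tmL n [true] [false]) j)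
    rwa [blk_lpow, blk_tmL, b1, b2] at h1
  · have h1 := key (lpow (tmL n [false] [true]) j)
    rwa [blk_lpow, blk_tmL, b1, b2] at h1

private theorem lpow_inj {A : Type} {s t : List A} (hl : s.length = t.length) {j : ℕ}
    (hj : 0 < j) (h : lpow s j = lpow t j) : s = t := by
  obtain ⟨i, rfl⟩ : ∃ i, j = i + 1 := ⟨j - 1, by omega⟩
  rw [lpow, lpow] at h
  exact (List.append_inj h hl).1

private theorem tmL_len {A : Type} (u v : List A) (n : ℕ) (hn : 0 < n) :
    (tmL n u v).length = (tmL n v u).length := by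
  obtain ⟨i, rfl⟩ : ∃ i, n = i + 1 := ⟨n - 1, by omega⟩
  rw [tmL, tmL, List.length_append, List.length_append, add_comm]

private theorem first_split {A : Type} {X : A → Prop} {β : List A} (h : ∃ a ∈ β, ¬ X a) :
    ∃ b1 a b2, β = b1 ++ a :: b2 ∧ (∀ c ∈ b1, X c) ∧ ¬ X a := by
  induction β with
  | nil =>
    obtain ⟨a, ha, _⟩ := h
    simp at ha
  | cons c β ih =>
    by_cases hc : X c
    · have h2 : ∃ a ∈ β, ¬ X a := by
        obtain ⟨a, ha, ha2⟩ := h
        rcases List.mem_cons.1 ha with h3 | h3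
        · exact absurd (h3 ▸ hc) ha2
        · exact ⟨a, h3, ha2⟩
      obtain ⟨b1, a, b2, e, h3, h4⟩ := ih h2
      refine ⟨c :: b1, a, b2, by rw [e]; rfl, ?_, h4⟩
      intro d hd
      rcases List.mem_cons.1 hd with h5 | h5
      · exact h5 ▸ hc
      · exact h3 d h5
    · exact ⟨[], c, β, rfl, by simp, hc⟩

private theorem split_uniq {A : Type} {X : A → Prop} {a : A} (ha : ¬ X a) :
    ∀ l1 l2 m1 m2 : List A, (∀ c ∈ l1, X c) → (∀ c ∈ l2, X c) →
      l1 ++ a :: m1 = l2 ++ a :: m2 → l1 = l2 := by
  intro l1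
  induction l1 with
  | nil =>
    intro l2 m1 m2 _ h2 h
    cases l2 with
    | nil => rfl
    | cons b l2 =>
      rw [List.nil_append, List.cons_append] at h
      have h3 := (List.cons.inj h).1
      exact absurd (h2 b List.mem_cons_self) (h3 ▸ ha)
  | cons c l1 ih =>
    intro l2 m1 m2 h1 h2 h
    cases l2 with
    | nil =>
      rw [List.nil_append, List.cons_append] at h
      have h3 := (List.cons.inj h).1
      exact absurd (h1 c List.mem_cons_self) (h3 ▸ ha)
    | cons b l2 =>
      rw [List.cons_append, List.cons_append] at h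
      have h3 := (List.cons.inj h).1
      have h4 := (List.cons.inj h).2
      rw [h3, ih l2 m1 m2 (fun d hd => h1 d (List.mem_cons_of_mem _ hd))
        (fun d hd => h2 d (List.mem_cons_of_mem _ hd)) h4]

private theorem UV_ne {A : Type} {X : A → Prop} {r β : List A} (hr : r ≠ [])
    (hrX : ∀ a ∈ r, X a) (hβ : ∃ a ∈ β, ¬ X a) {K : ℕ} (hK : 0 < K) :
    (lpow r K ++ β) ++ (lpow r (2 * K) ++ β) ≠ (lpow r (2 * K) ++ β) ++ (lpow r K ++ β) := by
  intro h
  obtain ⟨b1, a, b2, rfl, h1, ha⟩ := first_split hβ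
  rw [two_mul, lpow_add] at h
  simp only [List.append_assoc] at h
  have h2 := List.append_cancel_left h
  simp only [List.cons_append] at h2
  have h3 := split_uniq ha b1 (lpow r K ++ b1) _ _ h1 ?_
    (h2.trans (List.append_assoc (lpow r K) b1 _).symm)
  · have h4 := congrArg List.length h3
    rw [List.length_append, length_lpow] at h4
    have : 0 < r.length := List.length_pos_iff.2 hr
    have : 0 < K * r.length := Nat.mul_pos hK this
    omega
  · intro c hc
    rcases List.mem_append.1 hc with h4 | h4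
    · exact hrX c (mem_lpow h4)
    · exact h1 c h4

theorem tmL_ne {A : Type} {X : A → Prop} {r β : List A} (hr : r ≠ []) (hrX : ∀ a ∈ r, X a)
    (hβ : ∃ a ∈ β, ¬ X a) {K : ℕ} (hK : 0 < K) (n j : ℕ) (hj : 0 < j) :
    lpow (tmL n (lpow r K ++ β) (lpow r (2 * K) ++ β)) j ≠
      lpow (tmL n (lpow r (2 * K) ++ β) (lpow r K ++ β)) j := by
  intro h
  rcases Nat.eq_zero_or_pos n with h0 | h0
  · subst h0
    have h1 := congrArg List.length h
    rw [length_lpow, length_lpow] at h1
    have h2 := Nat.eq_of_mul_eq_mul_left hj h1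
    simp only [tmL, List.length_append, length_lpow] at h2
    have : 0 < r.length := List.length_pos_iff.2 hr
    have : 0 < K * r.length := Nat.mul_pos hK this
    nlinarith
  · have h1 := lpow_inj (tmL_len _ _ n h0) hj h
    clear h hj
    induction n with
    | zero => omega
    | succ n ih =>
      rcases Nat.eq_zero_or_pos n with h2 | h2
      · subst h2
        exact UV_ne hr hrX hβ hK h1
      · apply ih h2
        rw [tmL, tmL] at h1
        exact (List.append_inj h1 (tmL_len _ _ n h2)).1

end Pool.Agent.SLN
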