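import Mathlib
import Pool.Agent.SLN.MaxB
/-!
# Links
-/
namespace Pool.Agent.SLN
open Pool.Agent.SLX (val)

variable {A G : Type} [Group G] {π : A → G} {L : List A → Prop} {lam : G → ℚ} {P : Set G}

/-- Links compose; the connecting string contains a letter at the middle vertex. -/
theorem link_trans' (hL : GoodLang π L) (hP : Cone P) (hlam : IsForm lam)
    (h1 : ∀ g h : G, IsOfFinOrder g → IsOfFinOrder h → IsOfFinOrder (g * h))
    (h3 : ∀ g h : G, IsOfFinOrder (g * h⁻¹) → ∃ e, 0 < e ∧ g ^ e = h ^ e)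
    {x y z : A} (hy : Vert π y) (hxy : Link π lam P L x y) (hyz : Link π lam P L y z) :
    ∃ r t β : List A, r ≠ [] ∧ t ≠ [] ∧ (∀ a ∈ r, LM π lam P x a) ∧
      (∀ a ∈ t, LM π lam P z a) ∧ (∀ k, L (lpow r k ++ β ++ lpow t k)) ∧
      ∃ a ∈ β, LM π lam P y a := by
  obtain ⟨r1, t, b1, hr1, ht, hr1', ht', hL1⟩ := hxy
  obtain ⟨r', u, b2, hr', hu, hr'', hu', hL2⟩ := hyz
  have htL : ∀ k, L (lpow t k) := fun k =>
    hL.factor (lpow r1 k ++ b1) (lpow t k) [] (by simpa using hL1 k)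
  have hrL : ∀ k, L (lpow r' k) := fun k =>
    hL.factor [] (lpow r' k) (b2 ++ lpow u k) (by simpa using hL2 k)
  obtain ⟨K, K', hK, hK', hKK⟩ := lpow_eq hL hP hlam h1 h3 hy ht hr' ht' hr'' htL hrL
  obtain ⟨N, hN⟩ := hL.glue
  have hs : lpow t (K * (N + 1)) = lpow r' (K' * (N + 1)) := by
    rw [lpow_mul, lpow_mul, hKK]
  have htl : 0 < t.length := List.length_pos_iff.2 ht
  have hslen : N ≤ (lpow t (K * (N + 1))).length := by
    rw [length_lpow]
    have e1 : 1 * (N + 1) ≤ K * (N + 1) := Nat.mul_le_mul_right _ hK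
    have e2 : K * (N + 1) * 1 ≤ K * (N + 1) * t.length := Nat.mul_le_mul_left _ htl
    omega
  refine ⟨r1, u, b1 ++ lpow t (K * (N + 1)) ++ b2, hr1, hu, hr1', hu', ?_, ?_⟩
  · intro k
    have g1 : L ((lpow r1 k ++ b1) ++ lpow t (K * (N + 1))) := by
      have h := hL1 (K * (N + 1) + k)
      apply hL.factor (lpow r1 (K * (N + 1))) _ (lpow t k)
      rw [lpow_add r1, lpow_add t] at h
      simpa [List.append_assoc] using h
    have g2 : L (lpow t (K * (N + 1)) ++ (b2 ++ lpow u k)) := by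
      have h := hL2 (k + K' * (N + 1))
      rw [hs]
      apply hL.factor (lpow r' k) _ (lpow u (K' * (N + 1)))
      rw [lpow_add r', lpow_add u] at h
      simpa [List.append_assoc] using h
    have g3 := hN _ _ _ hslen g1 g2
    simpa [List.append_assoc] using g3
  · obtain ⟨a, t', rfl⟩ := List.exists_cons_of_ne_nil ht
    refine ⟨a, ?_, ht' a List.mem_cons_self⟩
    have hpos : 0 < K * (N + 1) := Nat.mul_pos hK (Nat.succ_pos N)
    obtain ⟨m, hm⟩ : ∃ m, K * (N + 1) = m + 1 := ⟨K * (N + 1) - 1, by omega⟩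
    rw [hm]
    simp [lpow]

theorem link_trans (hL : GoodLang π L) (hP : Cone P) (hlam : IsForm lam)
    (h1 : ∀ g h : G, IsOfFinOrder g → IsOfFinOrder h → IsOfFinOrder (g * h))
    (h3 : ∀ g h : G, IsOfFinOrder (g * h⁻¹) → ∃ e, 0 < e ∧ g ^ e = h ^ e)
    {x y z : A} (hy : Vert π y) (hxy : Link π lam P L x y) (hyz : Link π lam P L y z) :
    Link π lam P L x z := by
  obtain ⟨r, t, β, h⟩ := link_trans' hL hP hlam h1 h3 hy hxy hyz
  exact ⟨r, t, β, h.1, h.2.1, h.2.2.1, h.2.2.2.1, h.2.2.2.2.1⟩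

/-- A link from `x` to itself, in a form in which the same string is used at both ends. -/
theorem link_self (hL : GoodLang π L) (hP : Cone P) (hlam : IsForm lam)
    (h1 : ∀ g h : G, IsOfFinOrder g → IsOfFinOrder h → IsOfFinOrder (g * h))
    (h3 : ∀ g h : G, IsOfFinOrder (g * h⁻¹) → ∃ e, 0 < e ∧ g ^ e = h ^ e)
    {x y : A} (hx : Vert π x) (hy : Vert π y) (hne : ¬ SameC π y x)
    (hxy : Link π lam P L x y) (hyx : Link π lam P L y x) :
    ∃ r β : List A, r ≠ [] ∧ (∀ a ∈ r, SameC π a x) ∧ (∃ a ∈ β, ¬ SameC π a x) ∧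
      ∀ k, L (lpow r k ++ β ++ lpow r k) := by
  obtain ⟨r, t, β, hr, ht, hr', ht', hLk, a, ha, hya⟩ :=
    link_trans' hL hP hlam h1 h3 hy hxy hyx
  have htL : ∀ k, L (lpow t k) := fun k =>
    hL.factor (lpow r k ++ β) (lpow t k) [] (by simpa using hLk k)
  have hrL : ∀ k, L (lpow r k) := fun k =>
    hL.factor [] (lpow r k) (β ++ lpow t k) (by simpa using hLk k)
  obtain ⟨K, K', hK, hK', hKK⟩ := lpow_eq hL hP hlam h1 h3 hx hr ht hr' ht' hrL htL
  refine ⟨r, β, hr, fun b hb => (hr' b hb).1, ⟨a, ha, ?_⟩, ?_⟩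
  · intro hax
    apply hne
    intro f hf
    rw [← hya.1 f hf, hax f hf]
  · intro k
    have h := hLk (k + K' * k)
    have e1 : lpow t (k + K' * k) = lpow r k ++ lpow r ((K - 1) * k) ++ lpow t k := by
      have e2 : K * k = k + (K - 1) * k := by
        obtain ⟨m, rfl⟩ : ∃ m, K = m + 1 := ⟨K - 1, by omega⟩
        simp [Nat.succ_mul, Nat.add_comm]
      rw [Nat.add_comm, lpow_add, lpow_mul t K' k, ← hKK, ← lpow_mul, e2, lpow_add]
    have e3 : lpow r (k + K' * k) = lpow r (K' * k) ++ lpow r k := by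
      rw [Nat.add_comm, lpow_add]
    rw [e1, e3] at h
    apply hL.factor (lpow r (K' * k)) _ (lpow r ((K - 1) * k) ++ lpow t k)
    simpa [List.append_assoc] using h

end Pool.Agent.SLN
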