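import Mathlib
import Pool.Agent.SLN.Basic
/-!
# Vertices
-/
namespace Pool.Agent.SLN
open Pool.Agent.SLX (val)

private theorem small_eps {A : Type} [Finite A] (u v : A → ℚ) (N : ℚ) :
    ∃ ε : ℚ, 0 < ε ∧ 0 < 1 + ε * N ∧ ∀ c, u c < 1 → u c + ε * v c < 1 + ε * N := by
  have h1 : ∀ c : A, ∀ᶠ ε in nhdsWithin (0 : ℚ) (Set.Ioi 0),
      u c < 1 → u c + ε * v c < 1 + ε * N := by
    intro c
    by_cases hc : u c < 1
    · have ht : Filter.Tendsto (fun ε : ℚ => ε * (v c - N)) (nhdsWithin (0 : ℚ) (Set.Ioi 0))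
          (nhds 0) := by
        have h0 : Filter.Tendsto (fun ε : ℚ => ε * (v c - N)) (nhds (0 : ℚ)) (nhds 0) := by
          have hcon : Continuous (fun ε : ℚ => ε * (v c - N)) := by fun_prop
          have := hcon.tendsto 0
          rwa [zero_mul] at this
        exact h0.mono_left nhdsWithin_le_nhds
      have h2 : (0 : ℚ) < 1 - u c := by linarith
      filter_upwards [ht.eventually_lt_const h2] with ε hε _
      have : ε * (v c - N) = ε * v c - ε * N := by ring
      linarith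
    · exact Filter.Eventually.of_forall (fun ε h => absurd h hc)
  have h2 : ∀ᶠ ε in nhdsWithin (0 : ℚ) (Set.Ioi 0), 0 < 1 + ε * N := by
    have ht : Filter.Tendsto (fun ε : ℚ => 1 + ε * N) (nhdsWithin (0 : ℚ) (Set.Ioi 0))
        (nhds 1) := by
      have h0 : Filter.Tendsto (fun ε : ℚ => 1 + ε * N) (nhds (0 : ℚ)) (nhds 1) := by
        have hcon : Continuous (fun ε : ℚ => 1 + ε * N) := by fun_prop
        have := hcon.tendsto 0
        rwa [zero_mul, add_zero] at this
      exact h0.mono_left nhdsWithin_le_nhds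
    exact ht.eventually_const_lt one_pos
  have h3 : ∀ᶠ ε in nhdsWithin (0 : ℚ) (Set.Ioi 0), 0 < ε := self_mem_nhdsWithin
  obtain ⟨ε, ha, hb, hc⟩ := ((Filter.eventually_all.2 h1).and (h2.and h3)).exists
  exact ⟨ε, hc, hb, ha⟩

private theorem pos_letter {A G : Type} [Group G] {π : A → G}
    (hs : ∀ g : G, ∃ w : List A, val π w = g) {θ : G → ℚ} (hθ : IsChar θ) {g : G}
    (hg : θ g ≠ 0) : ∃ a : A, 0 < θ (π a) := by
  by_contra hcon
  push Not at hcon
  have h1 : ∀ w : List A, θ (val π w) ≤ 0 := by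
    intro w
    induction w with
    | nil => rw [vnil, hθ.one]
    | cons a w ih => rw [vcons, hθ]; linarith [hcon a]
  have h2 : ∀ g : G, θ g ≤ 0 := by
    intro g
    obtain ⟨w, rfl⟩ := hs g
    exact h1 w
  have h3 := h2 g
  have h4 := h2 g⁻¹
  rw [hθ.inv] at h4
  exact hg (by linarith)

theorem exists_vert {A G : Type} [Finite A] [Group G] {π : A → G}
    (hs : ∀ g : G, ∃ w : List A, val π w = g) {lam : G → ℚ} (hlam : IsForm lam)
    (hom : ∃ x y, om lam x y ≠ 0) : ∃ x : A, Vert π x ∧ ∃ g, om lam (π x) g ≠ 0 := by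
  classical
  obtain ⟨x', y', hxy⟩ := hom
  have hθ : IsChar (fun g => om lam g y') := isChar_om' hlam y'
  obtain ⟨a₀, ha₀⟩ := pos_letter hs hθ (g := x') hxy
  haveI : Nonempty A := ⟨a₀⟩
  obtain ⟨am, ham⟩ := Finite.exists_max (fun a => om lam (π a) y')
  have hM : 0 < om lam (π am) y' := lt_of_lt_of_le ha₀ (ham a₀)
  set M := om lam (π am) y' with hMdef
  let Good : (G → ℚ) → Prop := fun f => IsChar f ∧ (∀ a, f (π a) ≤ 1) ∧ (∃ a, f (π a) = 1) ∧
    ∀ a, f (π a) = 1 → om lam (π a) y' = M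
  have hex : ∃ n : ℕ, ∃ f, Good f ∧ {a | f (π a) = 1}.ncard = n := by
    refine ⟨_, fun g => M⁻¹ * om lam g y', ⟨hθ.smul _, ?_, ⟨am, ?_⟩, ?_⟩, rfl⟩
    · intro a
      show M⁻¹ * om lam (π a) y' ≤ 1
      rw [inv_mul_le_iff₀ hM, mul_one]
      exact ham a
    · show M⁻¹ * om lam (π am) y' = 1
      rw [← hMdef]
      exact inv_mul_cancel₀ hM.ne'
    · intro a ha
      have ha' : M⁻¹ * om lam (π a) y' = 1 := ha
      rw [inv_mul_eq_iff_eq_mul₀ hM.ne', mul_one] at ha'
      exact ha'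
  obtain ⟨f, hf, hcard⟩ := Nat.find_spec hex
  have hmin : ∀ f', Good f' → Nat.find hex ≤ {a | f' (π a) = 1}.ncard := fun f' hf' =>
    Nat.find_min' hex ⟨f', hf', rfl⟩
  obtain ⟨hfc, hf1, ⟨x, hx⟩, hfM⟩ := hf
  refine ⟨x, ⟨f, hfc, hx, hf1, ?_⟩, y', ?_⟩
  · intro a ha
    by_contra hne
    have : ∃ h : G → ℚ, IsChar h ∧ h (π a) ≠ h (π x) := by
      by_contra hcon
      push Not at hcon
      exact hne (fun h hh => hcon h hh)
    obtain ⟨h, hh, hax⟩ := this
    -- the maximum of `h` over the letters with `f = 1`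
    haveI : Nonempty {c : A // f (π c) = 1} := ⟨⟨x, hx⟩⟩
    obtain ⟨⟨cm, hcm⟩, hcmax⟩ :=
      Finite.exists_max (fun c : {c : A // f (π c) = 1} => h (π c.1))
    have hcmax' : ∀ c, f (π c) = 1 → h (π c) ≤ h (π cm) := fun c hc => hcmax ⟨c, hc⟩
    obtain ⟨ε, hε, hpos, hlt⟩ :=
      small_eps (fun c => f (π c)) (fun c => h (π c)) (h (π cm))
    have hle : ∀ c, f (π c) + ε * h (π c) ≤ 1 + ε * h (π cm) := by
      intro c
      rcases lt_or_eq_of_le (hf1 c) with hc | hc
      · exact (hlt c hc).le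
      · rw [hc]
        have := mul_le_mul_of_nonneg_left (hcmax' c hc) hε.le
        linarith
    let f' : G → ℚ := fun g => (1 + ε * h (π cm))⁻¹ * (f g + ε * h g)
    have hf'c : IsChar f' := (hfc.add (hh.smul ε)).smul _
    have hf'1 : ∀ c, f' (π c) = 1 ↔ f (π c) + ε * h (π c) = 1 + ε * h (π cm) := by
      intro c
      show (1 + ε * h (π cm))⁻¹ * (f (π c) + ε * h (π c)) = 1 ↔ _
      rw [inv_mul_eq_iff_eq_mul₀ hpos.ne', mul_one]
    have hsub : ∀ c, f' (π c) = 1 → f (π c) = 1 ∧ h (π c) = h (π cm) := by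
      intro c hc
      rw [hf'1] at hc
      have hc1 : f (π c) = 1 := by
        rcases lt_or_eq_of_le (hf1 c) with hc2 | hc2
        · exact absurd hc (hlt c hc2).ne
        · exact hc2
      refine ⟨hc1, ?_⟩
      rw [hc1] at hc
      have : ε * h (π c) = ε * h (π cm) := by linarith
      exact mul_left_cancel₀ hε.ne' this
    have hgood : Good f' := by
      refine ⟨hf'c, ?_, ⟨cm, ?_⟩, ?_⟩
      · intro c
        show (1 + ε * h (π cm))⁻¹ * (f (π c) + ε * h (π c)) ≤ 1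
        rw [inv_mul_le_iff₀ hpos, mul_one]
        exact hle c
      · rw [hf'1, hcm]
      · intro c hc
        exact hfM c (hsub c hc).1
    have h1 := hmin f' hgood
    rw [← hcard] at h1
    have h2 : {c | f' (π c) = 1}.ncard < {c | f (π c) = 1}.ncard := by
      have hss : {c | f' (π c) = 1} ⊆ {c | f (π c) = 1} := fun c hc => (hsub c hc).1
      refine Set.ncard_lt_ncard ((Set.ssubset_iff_of_subset hss).2 ?_) (Set.toFinite _)
      by_cases hxm : h (π x) = h (π cm)
      · refine ⟨a, ha, fun hc => hax ?_⟩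
        rw [(hsub a hc).2, hxm]
      · exact ⟨x, hx, fun hc => hxm (hsub x hc).2⟩
    exact absurd h1 (not_le.2 h2)
  · rw [hfM x hx]
    exact hM.ne'

end Pool.Agent.SLN
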