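import Mathlib
import Pool.Agent.SLN.Basic
/-!
# Edges
-/
namespace Pool.Agent.SLN
open Pool.Agent.SLX (val)

private theorem small {I : Type} [Finite I] (T : I → Prop) (p q : I → ℚ)
    (h : ∀ i, T i → 0 < p i) : ∃ e : ℚ, 0 < e ∧ ∀ i, T i → e * q i < p i := by
  classical
  have key : ∀ i, ∃ e : ℚ, 0 < e ∧ ∀ e', 0 < e' → e' ≤ e → T i → e' * q i < p i := by
    intro i
    by_cases ht : T i
    · have hp := h i ht
      refine ⟨p i / (|q i| + 1), by positivity, fun e' he' hle _ => ?_⟩
      have h1 : e' * (|q i| + 1) ≤ p i := by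
        rw [le_div_iff₀ (by positivity)] at hle
        exact hle
      have h2 : e' * q i ≤ e' * |q i| := mul_le_mul_of_nonneg_left (le_abs_self _) he'.le
      linarith
    · exact ⟨1, one_pos, fun _ _ _ ht' => absurd ht' ht⟩
  choose e he he' using key
  rcases isEmpty_or_nonempty I with hI | hI
  · exact ⟨1, one_pos, fun i => (hI.false i).elim⟩
  · obtain ⟨i₀, hi₀⟩ := Finite.exists_min e
    exact ⟨e i₀, he i₀, fun i ht => he' i (e i₀) (he i₀) (hi₀ i) ht⟩

private theorem letter_pos {A G : Type} [Group G] {π : A → G}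
    (hs : ∀ g : G, ∃ w : List A, val π w = g) {psi : G → ℚ} (hpsi : IsChar psi)
    {g₀ : G} (h0 : psi g₀ ≠ 0) : ∃ a, 0 < psi (π a) := by
  by_contra hno
  push_neg at hno
  have hle : ∀ w : List A, psi (val π w) ≤ 0 := by
    intro w
    induction w with
    | nil => rw [vnil, hpsi.one]
    | cons a w ih =>
      rw [vcons, hpsi]
      have := hno a
      linarith
  obtain ⟨w, hw⟩ := hs g₀
  obtain ⟨w', hw'⟩ := hs g₀⁻¹
  have h1 := hle w
  have h2 := hle w'
  rw [hw] at h1
  rw [hw', hpsi.inv] at h2
  apply h0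
  linarith

theorem exists_edge {A G : Type} [Finite A] [Group G] {π : A → G}
    (hs : ∀ g : G, ∃ w : List A, val π w = g) {lam : G → ℚ} (hlam : IsForm lam)
    {x : A} (hx : Vert π x) {g₀ : G} (h0 : om lam (π x) g₀ ≠ 0) :
    ∃ (y : A) (s : A → ℚ) (g : G → ℚ), Edge π lam x y s g ∧ Vert π y := by
  classical
  have : Fintype A := Fintype.ofFinite A
  set psi : G → ℚ := fun g => om lam (π x) g with hpsi
  have cpsi : IsChar psi := isChar_om hlam (π x)
  have psix : psi (π x) = 0 := om_self hlam (π x)
  obtain ⟨a₀, ha₀⟩ := letter_pos hs cpsi h0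
  -- exposing characters
  set E : (G → ℚ) → Prop := fun f => IsChar f ∧ f (π x) = 1 ∧ (∀ a, f (π a) ≤ 1) ∧
    ∀ a, f (π a) = 1 → SameC π a x with hE
  set S : (G → ℚ) → Finset A := fun f => Finset.univ.filter (fun a => 0 < psi (π a) ∧
    ∀ b, 0 < psi (π b) → (1 - f (π a)) / psi (π a) ≤ (1 - f (π b)) / psi (π b)) with hS
  have hSne : ∀ f, ∃ a, a ∈ S f := by
    intro f
    have hne : (Finset.univ.filter (fun a : A => 0 < psi (π a))).Nonempty :=
      ⟨a₀, by simpa using ha₀⟩
    obtain ⟨a, ha, hmin⟩ := Finset.exists_min_image _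
      (fun a => (1 - f (π a)) / psi (π a)) hne
    refine ⟨a, ?_⟩
    rw [hS]
    simp only [Finset.mem_filter, Finset.mem_univ, true_and] at ha hmin ⊢
    exact ⟨ha, fun b hb => hmin b hb⟩
  have hex : ∃ n, ∃ f, E f ∧ (S f).card = n := by
    obtain ⟨f, hf⟩ := hx
    exact ⟨_, f, hf, rfl⟩
  obtain ⟨f, hf, hfc⟩ := Nat.find_spec hex
  have hmin : ∀ f', E f' → (S f).card ≤ (S f').card := by
    intro f' hf'
    rw [hfc]
    exact Nat.find_min' hex ⟨f', hf', rfl⟩
  obtain ⟨cf, fx, fle, fone⟩ := hf
  have memS : ∀ a, a ∈ S f ↔ 0 < psi (π a) ∧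
      ∀ b, 0 < psi (π b) → (1 - f (π a)) / psi (π a) ≤ (1 - f (π b)) / psi (π b) := by
    intro a
    rw [hS]
    simp
  have memS' : ∀ f' a, a ∈ S f' ↔ 0 < psi (π a) ∧
      ∀ b, 0 < psi (π b) → (1 - f' (π a)) / psi (π a) ≤ (1 - f' (π b)) / psi (π b) := by
    intro f' a
    rw [hS]
    simp
  have flt : ∀ a, 0 < psi (π a) → f (π a) < 1 := by
    intro a ha
    refine lt_of_le_of_ne (fle a) (fun h => ?_)
    have := fone a h psi cpsi
    rw [psix] at this
    linarith
  obtain ⟨a₁, ha₁⟩ := hSne f
  set rho : ℚ := (1 - f (π a₁)) / psi (π a₁) with hrho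
  have rpos : 0 < rho := div_pos (by linarith [flt a₁ ((memS a₁).1 ha₁).1]) ((memS a₁).1 ha₁).1
  have hrhoS : ∀ a ∈ S f, 1 - f (π a) = rho * psi (π a) := by
    intro a ha
    have h1 := ((memS a).1 ha).2 a₁ ((memS a₁).1 ha₁).1
    have h2 := ((memS a₁).1 ha₁).2 a ((memS a).1 ha).1
    have h3 : rho = (1 - f (π a)) / psi (π a) := le_antisymm h2 h1
    rw [h3, div_mul_cancel₀ _ ((memS a).1 ha).1.ne']
  have hrhole : ∀ a, 0 < psi (π a) → rho * psi (π a) ≤ 1 - f (π a) := by
    intro a ha
    have h2 := ((memS a₁).1 ha₁).2 a ha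
    rwa [← hrho, le_div_iff₀ ha] at h2
  have hrhoeq : ∀ a, 0 < psi (π a) → 1 - f (π a) = rho * psi (π a) → a ∈ S f := by
    intro a ha h
    rw [memS]
    refine ⟨ha, fun b hb => ?_⟩
    rw [h, mul_div_assoc, div_self ha.ne', mul_one]
    exact ((memS a₁).1 ha₁).2 b hb
  -- the claim
  have claim : ∀ a ∈ S f, ∀ b ∈ S f, ∀ h : G → ℚ, IsChar h →
      psi (π b) * (h (π a) - h (π x)) = psi (π a) * (h (π b) - h (π x)) := by
    intro a ha b hb h ch
    by_contra hne
    have pa := ((memS a).1 ha).1
    have pb := ((memS b).1 hb).1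
    set q : A → ℚ := fun c => h (π c) - h (π x) * f (π c) with hq
    obtain ⟨e1, he1, h1⟩ := small (fun c : A => ¬ SameC π c x) (fun c => 1 - f (π c)) q (by
      intro c hc
      have : f (π c) < 1 := lt_of_le_of_ne (fle c) (fun h => hc (fone c h))
      linarith)
    obtain ⟨e2, he2, h2⟩ := small (fun c : A × A => 0 < psi (π c.1) ∧ c.1 ∉ S f ∧ c.2 ∈ S f)
      (fun c => (1 - f (π c.1)) / psi (π c.1) - (1 - f (π c.2)) / psi (π c.2))
      (fun c => q c.1 / psi (π c.1) - q c.2 / psi (π c.2)) (by
      rintro ⟨c, a'⟩ ⟨hc, hcS, haS⟩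
      simp only at hc hcS haS ⊢
      have e3 := hrhoS a' haS
      have pa' := ((memS a').1 haS).1
      rw [e3, mul_div_assoc, div_self pa'.ne', mul_one, sub_pos, lt_div_iff₀ hc]
      exact lt_of_le_of_ne (hrhole c hc) (fun h => hcS (hrhoeq c hc h.symm)))
    -- a common eps
    set e := min e1 e2 with hedef
    have he : 0 < e := lt_min he1 he2
    have h1' : ∀ c, ¬ SameC π c x → e * q c < 1 - f (π c) := by
      intro c hc
      have hp : 0 < 1 - f (π c) := by
        have : f (π c) < 1 := lt_of_le_of_ne (fle c) (fun h => hc (fone c h))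
        linarith
      rcases le_or_gt (q c) 0 with h | h
      · have : e * q c ≤ 0 := mul_nonpos_of_nonneg_of_nonpos he.le h
        linarith
      · have : e * q c ≤ e1 * q c := mul_le_mul_of_nonneg_right (min_le_left _ _) h.le
        have := h1 c hc
        linarith
    have h2' : ∀ c a', 0 < psi (π c) → c ∉ S f → a' ∈ S f →
        e * (q c / psi (π c) - q a' / psi (π a')) <
          (1 - f (π c)) / psi (π c) - (1 - f (π a')) / psi (π a') := by
      intro c a' hc hcS haS
      have hp : 0 < (1 - f (π c)) / psi (π c) - (1 - f (π a')) / psi (π a') := by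
        have e3 := hrhoS a' haS
        have pa' := ((memS a').1 haS).1
        rw [e3, mul_div_assoc, div_self pa'.ne', mul_one, sub_pos, lt_div_iff₀ hc]
        exact lt_of_le_of_ne (hrhole c hc) (fun h => hcS (hrhoeq c hc h.symm))
      rcases le_or_gt (q c / psi (π c) - q a' / psi (π a')) 0 with h | h
      · have : e * (q c / psi (π c) - q a' / psi (π a')) ≤ 0 :=
          mul_nonpos_of_nonneg_of_nonpos he.le h
        linarith
      · have h3 : e * (q c / psi (π c) - q a' / psi (π a')) ≤
            e2 * (q c / psi (π c) - q a' / psi (π a')) :=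
          mul_le_mul_of_nonneg_right (min_le_right _ _) h.le
        have := h2 (c, a') ⟨hc, hcS, haS⟩
        simp only at this
        linarith
    set f' : G → ℚ := fun g => f g + e * (h g + (- h (π x)) * f g) with hf'
    have cf' : IsChar f' := cf.add ((ch.add (cf.smul _)).smul e)
    have vf' : ∀ c, f' (π c) = f (π c) + e * q c := by
      intro c
      simp only [hf', hq]
      ring
    have f'x : f' (π x) = 1 := by
      simp only [hf', fx]
      ring
    have f'lt : ∀ c, ¬ SameC π c x → f' (π c) < 1 := by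
      intro c hc
      have := h1' c hc
      rw [vf']
      linarith
    have hE' : E f' := by
      refine ⟨cf', f'x, fun c => ?_, fun c hc => ?_⟩
      · by_cases hc : SameC π c x
        · rw [hc f' cf', f'x]
        · exact (f'lt c hc).le
      · by_contra hc'
        exact absurd hc (f'lt c hc').ne
    have hratio : ∀ c, (1 - f' (π c)) / psi (π c) =
        (1 - f (π c)) / psi (π c) - e * (q c / psi (π c)) := by
      intro c
      rw [vf']
      ring
    have hsub : S f' ⊆ S f := by
      intro c hc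
      by_contra hcS
      have hc1 := (memS' f' c).1 hc
      have h3 := h2' c a hc1.1 hcS ha
      have h4 := hc1.2 a pa
      rw [hratio, hratio] at h4
      linarith
    have hab : ¬ (a ∈ S f' ∧ b ∈ S f') := by
      rintro ⟨ha', hb'⟩
      have h3 := ((memS' f' a).1 ha').2 b pb
      have h4 := ((memS' f' b).1 hb').2 a pa
      have h5 := le_antisymm h3 h4
      rw [hratio, hratio, hrhoS a ha, hrhoS b hb, mul_div_assoc, mul_div_assoc, div_self pa.ne',
        div_self pb.ne'] at h5
      have h6 : e * (q a / psi (π a) - q b / psi (π b)) = 0 := by linarith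
      have h7 : q a / psi (π a) = q b / psi (π b) := by
        rcases mul_eq_zero.1 h6 with h | h
        · exact absurd h he.ne'
        · linarith
      rw [div_eq_div_iff pa.ne' pb.ne'] at h7
      simp only [hq] at h7
      have ea := hrhoS a ha
      have eb := hrhoS b hb
      apply hne
      have fa : f (π a) = 1 - rho * psi (π a) := by linarith
      have fb : f (π b) = 1 - rho * psi (π b) := by linarith
      rw [fa, fb] at h7
      linarith
    have hlt : (S f').card < (S f).card := by
      apply Finset.card_lt_card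
      refine ⟨hsub, fun hsup => hab ⟨hsup ha, hsup hb⟩⟩
    exact absurd (hmin f' hE') (not_le.2 hlt)
  -- the edge
  obtain ⟨y, hyS, hymax⟩ := Finset.exists_max_image (S f) (fun a => psi (π a)) ⟨a₁, ha₁⟩
  have psiy : 0 < psi (π y) := ((memS y).1 hyS).1
  set g : G → ℚ := fun t => f t + rho * psi t with hg
  have cg : IsChar g := cf.add (cpsi.smul rho)
  have gle : ∀ a, g (π a) ≤ 1 := by
    intro a
    simp only [hg]
    rcases le_or_gt (psi (π a)) 0 with h | h
    · have : rho * psi (π a) ≤ 0 := mul_nonpos_of_nonneg_of_nonpos rpos.le h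
      linarith [fle a]
    · linarith [hrhole a h]
  have gone : ∀ a, g (π a) = 1 → SameC π a x ∨ a ∈ S f := by
    intro a ha
    simp only [hg] at ha
    rcases le_or_gt (psi (π a)) 0 with h | h
    · have h1 : rho * psi (π a) ≤ 0 := mul_nonpos_of_nonneg_of_nonpos rpos.le h
      left
      exact fone a (le_antisymm (fle a) (by linarith))
    · right
      exact hrhoeq a h (by linarith)
  have gx : g (π x) = 1 := by
    simp only [hg, psix, fx]
    ring
  have gS : ∀ a ∈ S f, g (π a) = 1 := by
    intro a ha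
    simp only [hg]
    linarith [hrhoS a ha]
  have hseg : ∀ a, g (π a) = 1 → 0 ≤ psi (π a) / psi (π y) ∧ psi (π a) / psi (π y) ≤ 1 ∧
      ∀ h : G → ℚ, IsChar h → h (π a) =
        (1 - psi (π a) / psi (π y)) * h (π x) + psi (π a) / psi (π y) * h (π y) := by
    intro a ha
    rcases gone a ha with h | h
    · have h1 : psi (π a) = 0 := by rw [h psi cpsi, psix]
      rw [h1, zero_div]
      refine ⟨le_refl _, zero_le_one, fun k hk => ?_⟩
      rw [h k hk]
      ring
    · have h1 : 0 < psi (π a) := ((memS a).1 h).1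
      refine ⟨by positivity, ?_, fun k hk => ?_⟩
      · rw [div_le_one psiy]
        exact hymax a h
      · have h2 := claim a h y hyS k hk
        field_simp
        linarith
  refine ⟨y, fun a => psi (π a) / psi (π y), g, ⟨cg, gle, gx, gS y hyS, psiy, hseg⟩, ?_⟩
  obtain ⟨e, he, h1⟩ := small (fun c : A => g (π c) < 1) (fun c => 1 - g (π c))
    (fun c => psi (π c) - psi (π y)) (by
      intro c hc
      linarith)
  have hd : 0 < 1 + e * psi (π y) := by positivity
  refine ⟨fun t => (1 + e * psi (π y))⁻¹ * (g t + e * psi t),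
    (cg.add (cpsi.smul e)).smul _, ?_, fun a => ?_, fun a ha => ?_⟩
  · show (1 + e * psi (π y))⁻¹ * (g (π y) + e * psi (π y)) = 1
    rw [gS y hyS, inv_mul_cancel₀ hd.ne']
  · show (1 + e * psi (π y))⁻¹ * (g (π a) + e * psi (π a)) ≤ 1
    rw [inv_mul_le_iff₀ hd, mul_one]
    rcases lt_or_eq_of_le (gle a) with h | h
    · have := h1 a h
      linarith
    · have h2 := (hseg a h).2.1
      rw [div_le_one psiy] at h2
      have := mul_le_mul_of_nonneg_left h2 he.le
      linarith
  · change (1 + e * psi (π y))⁻¹ * (g (π a) + e * psi (π a)) = 1 at ha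
    rw [inv_mul_eq_iff_eq_mul₀ hd.ne', mul_one] at ha
    rcases lt_or_eq_of_le (gle a) with h | h
    · have := h1 a h
      exfalso
      linarith
    · rw [h] at ha
      have h2 : e * psi (π a) = e * psi (π y) := by linarith
      have h3 : psi (π a) = psi (π y) := mul_left_cancel₀ he.ne' h2
      intro k hk
      have h4 := (hseg a h).2.2 k hk
      rw [h3, div_self psiy.ne'] at h4
      rw [h4]
      ring

end Pool.Agent.SLN
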