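import Mathlib
import Pool.Agent.SLN.Basic
/-!
# Pumping
-/
namespace Pool.Agent.SLN
open Pool.Agent.SLX (val)

private theorem exists_window {A : Type} [Finite A] (N : ℕ) :
    ∃ B : ℕ, ∀ α : List A, B ≤ α.length → ∃ a1 r s a2 : List A,
      α = a1 ++ r ++ s ++ a2 ∧ r ≠ [] ∧ s.length = N ∧ ∃ r', r ++ s = s ++ r' := by
  classical
  have : Fintype A := Fintype.ofFinite A
  refine ⟨Fintype.card (Fin N → Option A) + 1 + N, fun α hα => ?_⟩
  let f : Fin (Fintype.card (Fin N → Option A) + 1) → (Fin N → Option A) :=
    fun i t => α[i.1 + t.1]?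
  obtain ⟨i0, j0, hne, heq⟩ := Fintype.exists_ne_map_eq_of_card_lt f (by simp)
  have key : ∃ i j : ℕ, i < j ∧ j + N ≤ α.length ∧ ∀ t < N, α[i + t]? = α[j + t]? := by
    have h1 := i0.2
    have h2 := j0.2
    rcases lt_or_gt_of_ne (fun h => hne (Fin.ext h) : i0.1 ≠ j0.1) with h | h
    · exact ⟨i0.1, j0.1, h, by omega, fun t ht => congrFun heq ⟨t, ht⟩⟩
    · exact ⟨j0.1, i0.1, h, by omega, fun t ht => (congrFun heq ⟨t, ht⟩).symm⟩
  obtain ⟨i, j, hij, hj, hw⟩ := key
  have hs : (α.drop j).take N = (α.drop i).take N := by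
    apply List.ext_getElem?
    intro t
    rw [List.getElem?_take, List.getElem?_take]
    split_ifs with ht
    · rw [List.getElem?_drop, List.getElem?_drop]
      exact (hw t ht).symm
    · rfl
  have hr : (α.drop i).take (j - i) ++ α.drop j = α.drop i := by
    have := List.take_append_drop (j - i) (α.drop i)
    rw [List.drop_drop] at this
    have e : i + (j - i) = j := by omega
    rw [e] at this
    exact this
  refine ⟨α.take i, (α.drop i).take (j - i), (α.drop j).take N, (α.drop j).drop N, ?_, ?_, ?_, ?_⟩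
  · rw [List.append_assoc, List.take_append_drop, List.append_assoc, hr, List.take_append_drop]
  · intro h0
    have := congrArg List.length h0
    simp at this
    omega
  · simp
    omega
  · refine ⟨((α.drop i).take (j - i + N)).drop N, ?_⟩
    have e1 : (α.drop i).take (j - i) ++ (α.drop j).take N = (α.drop i).take (j - i + N) := by
      rw [List.take_add, List.drop_drop]
      have e : i + (j - i) = j := by omega
      rw [e]
    rw [e1, hs]
    have e2 : (α.drop i).take N = ((α.drop i).take (j - i + N)).take N := by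
      rw [List.take_take]
      congr 1
      omega
    rw [e2, List.take_append_drop]

private theorem lpow_shift {A : Type} {r s r' : List A} (h : r ++ s = s ++ r') (k : ℕ) :
    lpow r k ++ s = s ++ lpow r' k := by
  induction k with
  | zero => simp [lpow]
  | succ k ih =>
    rw [lpow, lpow, List.append_assoc, ih, ← List.append_assoc, h, List.append_assoc]

private theorem lpow_succ_right {A : Type} (r : List A) (k : ℕ) :
    lpow r (k + 1) = lpow r k ++ r := by
  rw [lpow_add]
  simp [lpow]

theorem exists_pump {A : Type} [Finite A] {L : List A → Prop}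
    (hf : ∀ p w q : List A, L (p ++ w ++ q) → L w)
    (hg : ∃ N : ℕ, ∀ u s w : List A, N ≤ s.length → L (u ++ s) → L (s ++ w) → L (u ++ s ++ w))
    {X Y : A → Prop}
    (h : ∀ m : ℕ, ∃ α β γ : List A, L (α ++ β ++ γ) ∧ (∀ a ∈ α, X a) ∧ (∀ a ∈ γ, Y a) ∧
      m ≤ α.length ∧ m ≤ γ.length) :
    ∃ r t β : List A, r ≠ [] ∧ t ≠ [] ∧ (∀ a ∈ r, X a) ∧ (∀ a ∈ t, Y a) ∧
      ∀ k, L (lpow r k ++ β ++ lpow t k) := by
  obtain ⟨N, hN⟩ := hg
  obtain ⟨B, hB⟩ := exists_window (A := A) N
  obtain ⟨α, β, γ, hL, hX, hY, hα, hγ⟩ := h B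
  obtain ⟨a1, r, s, a2, ea, hr, hs, r', er⟩ := hB α hα
  obtain ⟨c1, t, s', c2, ec, ht, hs', t', et⟩ := hB γ hγ
  subst ea ec
  have hfp : ∀ w q : List A, L (w ++ q) → L w := fun w q hw => hf [] w q (by simpa using hw)
  have hfs : ∀ p w : List A, L (p ++ w) → L w := fun p w hw => hf p w [] (by simpa using hw)
  have base : L (r ++ s ++ (a2 ++ β ++ c1) ++ t ++ s') := by
    apply hf a1 _ c2
    simpa [List.append_assoc] using hL
  -- pump on the left
  have left : ∀ k, L (lpow r k ++ s ++ ((a2 ++ β ++ c1) ++ t ++ s')) := by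
    intro k
    induction k with
    | zero =>
      apply hfs r
      simpa [lpow, List.append_assoc] using base
    | succ k ih =>
      have h1 : L (r ++ s) := hfp _ ((a2 ++ β ++ c1) ++ t ++ s') (by
        simpa [List.append_assoc] using base)
      have h2 : L (s ++ (lpow r' k ++ ((a2 ++ β ++ c1) ++ t ++ s'))) := by
        rw [← List.append_assoc, ← lpow_shift er]
        exact ih
      have h3 := hN r s _ (le_of_eq hs.symm) h1 h2
      have e : lpow r (k + 1) ++ s ++ ((a2 ++ β ++ c1) ++ t ++ s')
          = r ++ s ++ (lpow r' k ++ ((a2 ++ β ++ c1) ++ t ++ s')) := by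
        rw [lpow_shift er, lpow, er]
        simp only [List.append_assoc]
      rw [e]
      exact h3
  have right : ∀ (u : List A), L (u ++ t ++ s') → ∀ k, L (u ++ lpow t k ++ s') := by
    intro u hu k
    induction k with
    | zero =>
      apply hfp _ t'
      have e : u ++ lpow t 0 ++ s' ++ t' = u ++ t ++ s' := by
        simp only [lpow, List.append_nil, List.append_assoc, ← et]
      rw [e]
      exact hu
    | succ k ih =>
      have h1 : L (s' ++ t') := by
        rw [← et]
        apply hfs u
        simpa [List.append_assoc] using hu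
      have h3 := hN (u ++ lpow t k) s' t' (le_of_eq hs'.symm) ih h1
      have e : u ++ lpow t (k + 1) ++ s' = u ++ lpow t k ++ s' ++ t' := by
        rw [lpow_succ_right]
        simp only [List.append_assoc, et]
      rw [e]
      exact h3
  refine ⟨r, t, s ++ (a2 ++ β ++ c1), hr, ht, ?_, ?_, ?_⟩
  · intro a ha
    apply hX
    simp [ha]
  · intro a ha
    apply hY
    simp [ha]
  · intro k
    have h1 := right (lpow r k ++ s ++ (a2 ++ β ++ c1)) (by
      have := left k
      simpa [List.append_assoc] using this) k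
    apply hfp _ s'
    simpa [List.append_assoc] using h1

end Pool.Agent.SLN
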