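import Mathlib
import Pool.Agent.SLN.Poly1
import Pool.Agent.SLN.Poly2
import Pool.Agent.SLN.Corner3
import Pool.Agent.SLN.Pump
import Pool.Agent.SLN.Glue
import Pool.Agent.SLN.Free
/-!
# The main argument
-/
namespace Pool.Agent.SLN
open Pool.Agent.SLX (val)

theorem link_of_edge {A G : Type} [Finite A] [Group G] {π : A → G} {L : List A → Prop}
    (hL : GoodLang π L) {lam : G → ℚ} {P : Set G} (hP : Cone P) (hlam : IsForm lam)
    {x y : A} {s : A → ℚ} {g : G → ℚ} (hE : Edge π lam x y s g) : Link π lam P L x y := by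
  refine exists_pump hL.factor hL.glue (X := LM π lam P x) (Y := LM π lam P y) ?_
  intro m
  obtain ⟨α, β, γ, h1, h2, h3, h4, h5, h6⟩ := exists_corner hL hP hlam hE m
  refine ⟨α, β, γ, h1, ?_, ?_, h5, h6⟩
  · have h7 : IsMax π lam P α := by
      apply IsMax.factor hP hlam (p := []) (q := β ++ γ)
      simpa using h2
    exact LM_of_isMax hP hlam h7 h3
  · have h7 : IsMax π lam P γ := by
      apply IsMax.factor hP hlam (p := α ++ β) (q := [])
      simpa using h2
    exact LM_of_isMax hP hlam h7 h4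

theorem core {A G : Type} [Finite A] [Group G] {π : A → G} {L : List A → Prop}
    (hL : GoodLang π L) (hs : ∀ g : G, ∃ w : List A, val π w = g)
    {P : Set G} (hP : Cone P) {lam : G → ℚ} (hlam : IsForm lam) (hom : ∃ x y, om lam x y ≠ 0)
    (h1 : ∀ g h : G, IsOfFinOrder g → IsOfFinOrder h → IsOfFinOrder (g * h))
    (h3 : ∀ g h : G, IsOfFinOrder (g * h⁻¹) → ∃ e, 0 < e ∧ g ^ e = h ^ e)
    (h5 : ∃ n, ∀ u v : G, ∃ j, 0 < j ∧ (tm n u v) ^ j = (tm n v u) ^ j) : False := by
  classical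
  let V := {x : A // Vert π x ∧ ∃ g, om lam (π x) g ≠ 0}
  have hstep : ∀ x : V, ∃ y : V, Link π lam P L x.1 y.1 ∧ ¬ SameC π y.1 x.1 := by
    rintro ⟨x, hx, g₀, h0⟩
    obtain ⟨y, s, g, hE, hy⟩ := exists_edge hs hlam hx h0
    have hpos := hE.pos
    refine ⟨⟨y, hy, π x, ?_⟩, link_of_edge hL hP hlam hE, ?_⟩
    · rw [om_symm hlam (π x) (π y)]
      intro h; linarith
    · intro h
      have h6 := h _ (isChar_om hlam (π x))
      simp only at h6
      rw [om_self hlam] at h6
      linarith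
  choose F hF1 hF2 using hstep
  obtain ⟨x₀, hx₀⟩ := exists_vert hs hlam hom
  let v₀ : V := ⟨x₀, hx₀⟩
  let u : ℕ → V := fun n => F^[n] v₀
  have hu : ∀ n, u (n + 1) = F (u n) := fun n => Function.iterate_succ_apply' F n v₀
  have hlink : ∀ k n, Link π lam P L (u n).1 (u (n + 1 + k)).1 := by
    intro k
    induction k with
    | zero => intro n; rw [Nat.add_zero, hu]; exact hF1 _
    | succ k ih =>
      intro n
      refine link_trans hL hP hlam h1 h3 (u (n + 1)).2.1 (y := (u (n + 1)).1) ?_ ?_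
      · rw [hu]; exact hF1 _
      · have := ih (n + 1)
        rwa [show n + 1 + 1 + k = n + 1 + (k + 1) by ring] at this
  obtain ⟨i, j, hij, he⟩ := Finite.exists_ne_map_eq_of_infinite u
  wlog hlt : i < j generalizing i j
  · exact this j i hij.symm he.symm (lt_of_le_of_ne (not_lt.1 hlt) hij.symm)
  have hxy : Link π lam P L (u i).1 (u (i + 1)).1 := hlink 0 i
  have hne : ¬ SameC π (u (i + 1)).1 (u i).1 := by rw [hu]; exact hF2 _
  have hyx : Link π lam P L (u (i + 1)).1 (u i).1 := by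
    rcases Nat.lt_or_ge (i + 1) j with h | h
    · obtain ⟨k, rfl⟩ := Nat.exists_eq_add_of_lt h
      have := hlink k (i + 1)
      rw [he]
      rwa [show i + 1 + 1 + k = i + 1 + k + 1 by ring] at this
    · have h' : j = i + 1 := by omega
      subst h'
      exact absurd (by rw [he]; exact fun _ _ => rfl) hne
  obtain ⟨r, β, hr, hrX, hβ, hrL⟩ := link_self hL hP hlam h1 h3 (u i).2.1 (u (i + 1)).2.1 hne hxy hyx
  obtain ⟨n, hn⟩ := h5
  obtain ⟨K, hK, hKL⟩ := tmL_mem hL.factor hL.glue hr hrL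
  obtain ⟨m, hm, hm'⟩ := hn (val π (lpow r K ++ β)) (val π (lpow r (2 * K) ++ β))
  apply tmL_ne hr hrX hβ hK n m hm
  apply hL.uniq _ _ (hKL n m).1 (hKL n m).2
  rw [vlpow, vlpow, vtmL, vtmL, hm']

end Pool.Agent.SLN
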