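import Mathlib
import Pool.Agent.SLN.Basic
/-!
# Rational characters separate elements of infinite order
-/
namespace Pool.Agent.SLN

theorem exists_char_comm {B : Type} [CommGroup B] {b : B} (hb : ¬ IsOfFinOrder b) :
    ∃ f : B → ℚ, IsChar f ∧ f b ≠ 0 := by
  have hinj : Function.Injective (zmultiplesHom (Additive B) (Additive.ofMul b)) := by
    intro m n hmn
    have h1 : b ^ m = b ^ n := by
      have h2 := congrArg Additive.toMul hmn
      simpa using h2
    exact (injective_zpow_iff_not_isOfFinOrder.2 hb) h1
  obtain ⟨h, hh⟩ := (Module.Baer.of_divisible ℚ).extension_property_addMonoidHom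
    (zmultiplesHom (Additive B) (Additive.ofMul b)) hinj (Int.castAddHom ℚ)
  refine ⟨fun x => h (Additive.ofMul x), ?_, ?_⟩
  · intro x y
    show h (Additive.ofMul (x * y)) = _
    rw [ofMul_mul, map_add]
  · have h1 := DFunLike.congr_fun hh (1 : ℤ)
    have h2 : h (Additive.ofMul b) = 1 := by
      simpa using h1
    show h (Additive.ofMul b) ≠ 0
    rw [h2]
    exact one_ne_zero

theorem pow_mem_of_flat {G : Type} [Group G] {g : G} (hg : Flat g) :
    ∃ k, 0 < k ∧ g ^ k ∈ commutator G := by
  by_contra hcon
  have hb : ¬ IsOfFinOrder (Abelianization.of g) := by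
    intro hfin
    obtain ⟨n, hn, hn1⟩ := isOfFinOrder_iff_pow_eq_one.1 hfin
    apply hcon
    refine ⟨n, hn, ?_⟩
    rw [← map_pow] at hn1
    rw [← Abelianization.ker_of]
    exact hn1
  obtain ⟨f, hf, hfb⟩ := exists_char_comm hb
  apply hfb
  exact hg (fun x => f (Abelianization.of x)) (fun x y => by
    show f (Abelianization.of (x * y)) = _
    rw [map_mul]
    exact hf _ _)

end Pool.Agent.SLN
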