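import Mathlib
import Pool.Agent.SLN.Char
/-!
# A form which does not vanish on a commutator of infinite order modulo the third term of the
lower central series
-/
namespace Pool.Agent.SLN
open scoped commutatorElement

/-- The subgroup of the flat elements. -/
private def FlatSub (G : Type) [Group G] : Subgroup G where
  carrier := {g | Flat g}
  mul_mem' := fun hm hn => Flat.mul hm hn
  one_mem' := flat_one
  inv_mem' := fun hm => Flat.inv hm

private theorem flatSub_normal (G : Type) [Group G] : (FlatSub G).Normal :=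
  ⟨fun _ hn x => Flat.conj hn x⟩

private theorem mk_comm_central {G : Type} [Group G] {g : G} (hg : g ∈ commutator G)
    (q : G ⧸ ⁅(⊤ : Subgroup G), commutator G⁆) :
    q * (QuotientGroup.mk g) = (QuotientGroup.mk g) * q := by
  obtain ⟨a, rfl⟩ := QuotientGroup.mk_surjective q
  rw [← QuotientGroup.mk_mul, ← QuotientGroup.mk_mul, QuotientGroup.eq]
  have h1 : ⁅g⁻¹, a⁻¹⁆ ∈ ⁅(⊤ : Subgroup G), commutator G⁆ := by
    rw [Subgroup.commutator_comm]
    exact Subgroup.commutator_mem_commutator (Subgroup.inv_mem _ hg) (Subgroup.mem_top _)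
  have h2 : (a * g)⁻¹ * (g * a) = ⁅g⁻¹, a⁻¹⁆ := by
    rw [commutatorElement_def]; group
  rw [h2]
  exact h1

private theorem pow_mem_of_mem {G : Type} [Group G] {d : G}
    (hd : d ∈ ⁅(⊤ : Subgroup G), FlatSub G⁆) :
    ∃ k, 0 < k ∧ d ^ k ∈ ⁅(⊤ : Subgroup G), commutator G⁆ := by
  set Q := G ⧸ ⁅(⊤ : Subgroup G), commutator G⁆ with hQ
  let T : Subgroup Q :=
    { carrier := {q | (∀ r : Q, r * q = q * r) ∧ IsOfFinOrder q}
      mul_mem' := by
        rintro a b ⟨ha, ha'⟩ ⟨hb, hb'⟩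
        refine ⟨fun r => ?_, ?_⟩
        · rw [← mul_assoc, ha r, mul_assoc, hb r, mul_assoc]
        · exact Commute.isOfFinOrder_mul (ha b).symm ha' hb'
      one_mem' := ⟨fun r => by rw [mul_one, one_mul], IsOfFinOrder.one⟩
      inv_mem' := by
        rintro a ⟨ha, ha'⟩
        refine ⟨fun r => ?_, ha'.inv⟩
        have hr : Commute r a := ha r
        exact hr.inv_right }
  have hle : ⁅(⊤ : Subgroup G), FlatSub G⁆ ≤
      T.comap (QuotientGroup.mk' ⁅(⊤ : Subgroup G), commutator G⁆) := by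
    rw [Subgroup.commutator_le]
    intro a _ n hn
    rw [Subgroup.mem_comap]
    have hcc : ⁅a, n⁆ ∈ commutator G := by
      rw [commutator_def]
      exact Subgroup.commutator_mem_commutator (Subgroup.mem_top _) (Subgroup.mem_top _)
    have hcen : ∀ r : Q, r * (QuotientGroup.mk ⁅a, n⁆ : Q) = QuotientGroup.mk ⁅a, n⁆ * r :=
      fun r => mk_comm_central hcc r
    obtain ⟨j, hj, hj'⟩ := pow_mem_of_flat (g := n) hn
    refine ⟨hcen, ?_⟩
    rw [isOfFinOrder_iff_pow_eq_one]
    refine ⟨j, hj, ?_⟩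
    show (QuotientGroup.mk ⁅a, n⁆ : Q) ^ j = 1
    have e1 : (QuotientGroup.mk (a * n * a⁻¹) : Q) = QuotientGroup.mk ⁅a, n⁆ * QuotientGroup.mk n := by
      rw [← QuotientGroup.mk_mul]
      congr 1
      rw [commutatorElement_def]; group
    have e2 : (QuotientGroup.mk (a * n ^ j * a⁻¹) : Q) = QuotientGroup.mk (n ^ j) := by
      have h3 := mk_comm_central hj' (QuotientGroup.mk a : Q)
      rw [QuotientGroup.mk_mul, QuotientGroup.mk_mul, h3, mul_assoc, ← QuotientGroup.mk_mul,
        mul_inv_cancel, QuotientGroup.mk_one, mul_one]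
    have e3 : (QuotientGroup.mk (a * n ^ j * a⁻¹) : Q) =
        (QuotientGroup.mk ⁅a, n⁆ : Q) ^ j * QuotientGroup.mk (n ^ j) := by
      have h4 : a * n ^ j * a⁻¹ = (a * n * a⁻¹) ^ j := by rw [conj_pow]
      have hcm : Commute (QuotientGroup.mk ⁅a, n⁆ : Q) (QuotientGroup.mk n) :=
        (hcen (QuotientGroup.mk n)).symm
      have h5 : (QuotientGroup.mk (n ^ j) : Q) = (QuotientGroup.mk n : Q) ^ j := rfl
      rw [h4, h5, QuotientGroup.mk_pow, e1, hcm.mul_pow]
    rw [e2] at e3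
    exact (mul_eq_right.1 e3.symm)
  obtain ⟨_, h2⟩ := hle hd
  rw [isOfFinOrder_iff_pow_eq_one] at h2
  obtain ⟨k, hk, hk'⟩ := h2
  refine ⟨k, hk, ?_⟩
  rw [← map_pow, QuotientGroup.mk'_apply, QuotientGroup.eq_one_iff] at hk'
  exact hk'

theorem exists_form_of {G : Type} [Group G] {x y : G}
    (h : ∀ k : ℕ, 0 < k → (x * y * x⁻¹ * y⁻¹) ^ k ∉ ⁅(⊤ : Subgroup G), commutator G⁆) :
    ∃ lam : G → ℚ, IsForm lam ∧ om lam x y ≠ 0 := by
  classical
  haveI : (FlatSub G).Normal := flatSub_normal G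
  set D : Subgroup G := ⁅(⊤ : Subgroup G), FlatSub G⁆ with hD
  set D' : Subgroup (FlatSub G) := D.subgroupOf (FlatSub G) with hD'
  haveI : D'.Normal := inferInstance
  letI : CommGroup (FlatSub G ⧸ D') :=
    { (inferInstance : Group (FlatSub G ⧸ D')) with
      mul_comm := by
        intro a b
        obtain ⟨a, rfl⟩ := QuotientGroup.mk_surjective a
        obtain ⟨b, rfl⟩ := QuotientGroup.mk_surjective b
        show (QuotientGroup.mk (a * b) : FlatSub G ⧸ D') = QuotientGroup.mk (b * a)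
        rw [QuotientGroup.eq, hD', Subgroup.mem_subgroupOf]
        have e : (((a * b)⁻¹ * (b * a) : FlatSub G) : G) = ⁅(b : G)⁻¹, (a : G)⁻¹⁆ := by
          rw [commutatorElement_def]
          push_cast
          group
        rw [e]
        exact Subgroup.commutator_mem_commutator (Subgroup.mem_top _)
          (Subgroup.inv_mem _ a.2) }
  have hc : Flat (x * y * x⁻¹ * y⁻¹) := flat_comm x y
  have hinf : ¬ IsOfFinOrder (QuotientGroup.mk (⟨x * y * x⁻¹ * y⁻¹, hc⟩ : FlatSub G) :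
      FlatSub G ⧸ D') := by
    intro hf
    rw [isOfFinOrder_iff_pow_eq_one] at hf
    obtain ⟨k, hk, hk'⟩ := hf
    have hk2 : (QuotientGroup.mk ((⟨x * y * x⁻¹ * y⁻¹, hc⟩ : FlatSub G) ^ k) :
      FlatSub G ⧸ D') = QuotientGroup.mk 1 := hk'
    rw [QuotientGroup.eq, hD', Subgroup.mem_subgroupOf] at hk2
    have hk3 : (x * y * x⁻¹ * y⁻¹) ^ k ∈ D := by
      have := D.inv_mem hk2
      simpa using this
    obtain ⟨j, hj, hj'⟩ := pow_mem_of_mem hk3
    rw [← pow_mul] at hj'
    exact h (k * j) (Nat.mul_pos hk hj) hj'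
  obtain ⟨f, hf, hfb⟩ := exists_char_comm hinf
  refine ⟨fun g => if hg : Flat g then f (QuotientGroup.mk (⟨g, hg⟩ : FlatSub G)) else 0,
    ⟨?_, ?_⟩, ?_⟩
  · intro m n hm hn
    simp only [dif_pos hm, dif_pos hn, dif_pos (hm.mul hn)]
    rw [← hf]
    rfl
  · intro n z hn
    simp only [dif_pos hn, dif_pos (hn.conj z)]
    congr 1
    rw [QuotientGroup.eq, hD', Subgroup.mem_subgroupOf]
    have e : (((⟨z * n * z⁻¹, hn.conj z⟩ : FlatSub G)⁻¹ * (⟨n, hn⟩ : FlatSub G) : FlatSub G) : G)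
        = ⁅z, n⁻¹⁆ := by
      rw [commutatorElement_def]
      push_cast
      group
    rw [e]
    exact Subgroup.commutator_mem_commutator (Subgroup.mem_top _)
      (Subgroup.inv_mem _ (show n ∈ FlatSub G from hn))
  · rw [om]
    simp only [dif_pos hc]
    exact hfb

end Pool.Agent.SLN
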