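import Mathlib
import Pool.Agent.SLN.Tor1
/-!
# Commutators of finite order modulo the third term of the lower central series
-/
namespace Pool.Agent.SLN

open scoped commutatorElement

private theorem fb_step (G : Type) [Group G] [Group.IsNilpotent G]
    (ih : (∀ x y : G ⧸ Subgroup.center G, ∃ k, 0 < k ∧ (x * y * x⁻¹ * y⁻¹) ^ k ∈
        ⁅(⊤ : Subgroup (G ⧸ Subgroup.center G)), commutator (G ⧸ Subgroup.center G)⁆) →
      ∀ x y : G ⧸ Subgroup.center G, IsOfFinOrder (x * y * x⁻¹ * y⁻¹))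
    (h : ∀ x y : G, ∃ k, 0 < k ∧ (x * y * x⁻¹ * y⁻¹) ^ k ∈ ⁅(⊤ : Subgroup G), commutator G⁆) :
    ∀ x y : G, IsOfFinOrder (x * y * x⁻¹ * y⁻¹) := by
  -- the quotient
  have hq : ∀ x y : G ⧸ Subgroup.center G, IsOfFinOrder (x * y * x⁻¹ * y⁻¹) := by
    apply ih
    intro x y
    obtain ⟨a, rfl⟩ := QuotientGroup.mk'_surjective (Subgroup.center G) x
    obtain ⟨b, rfl⟩ := QuotientGroup.mk'_surjective (Subgroup.center G) y
    obtain ⟨k, hk, hm⟩ := h a b
    refine ⟨k, hk, ?_⟩
    have h1 : (QuotientGroup.mk' (Subgroup.center G)) ((a * b * a⁻¹ * b⁻¹) ^ k) ∈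
        Subgroup.map (QuotientGroup.mk' (Subgroup.center G))
          ⁅(⊤ : Subgroup G), commutator G⁆ := Subgroup.mem_map_of_mem _ hm
    rw [Subgroup.map_commutator] at h1
    have h2 : ⁅Subgroup.map (QuotientGroup.mk' (Subgroup.center G)) (⊤ : Subgroup G),
        Subgroup.map (QuotientGroup.mk' (Subgroup.center G)) (commutator G)⁆ ≤
        ⁅(⊤ : Subgroup (G ⧸ Subgroup.center G)), commutator (G ⧸ Subgroup.center G)⁆ := by
      apply Subgroup.commutator_mono le_top
      rw [commutator_def, commutator_def, Subgroup.map_commutator]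
      exact Subgroup.commutator_mono le_top le_top
    have h3 := h2 h1
    simpa only [map_pow, map_mul, map_inv] using h3
  -- elements of the commutator subgroup
  have hc : ∀ u ∈ commutator G, IsOfFinOrder (QuotientGroup.mk' (Subgroup.center G) u) := by
    intro u hu
    rw [commutator_def, Subgroup.commutator_def] at hu
    induction hu using Subgroup.closure_induction with
    | mem x hx =>
      obtain ⟨a, -, b, -, rfl⟩ := hx
      have := hq (QuotientGroup.mk' (Subgroup.center G) a) (QuotientGroup.mk' (Subgroup.center G) b)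
      simpa only [commutatorElement_def, map_mul, map_inv] using this
    | one => rw [map_one]; exact IsOfFinOrder.one
    | mul x y _ _ hx hy => rw [map_mul]; exact tors_mul hx hy
    | inv x _ hx => rw [map_inv]; exact hx.inv
  have hz : ∀ u ∈ commutator G, ∃ m, 0 < m ∧ u ^ m ∈ Subgroup.center G := by
    intro u hu
    obtain ⟨m, hm, he⟩ := (isOfFinOrder_iff_pow_eq_one).1 (hc u hu)
    refine ⟨m, hm, ?_⟩
    rw [← map_pow] at he
    exact (QuotientGroup.eq_one_iff (N := Subgroup.center G) _).1 he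
  -- generators
  have hg : ∀ a : G, ∀ u ∈ commutator G, IsOfFinOrder ⁅a, u⁆ := by
    intro a u hu
    obtain ⟨m, hm, hz'⟩ := hz u hu
    have hv : (a * u * a⁻¹) ^ m = u ^ m := by
      rw [conj_pow]
      have := Subgroup.mem_center_iff.1 hz' a
      rw [this, mul_inv_cancel_right]
    obtain ⟨n, hn, ⟨c, hc'⟩, he⟩ := exists_pow_mul (g := a * u * a⁻¹) (h := u⁻¹) hm
      (by rw [hv]; exact hz') (by rw [inv_pow]; exact Subgroup.inv_mem _ hz')
    rw [isOfFinOrder_iff_pow_eq_one]
    refine ⟨n, hn, ?_⟩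
    rw [commutatorElement_def, he, hc', pow_mul, hv, ← pow_mul, inv_pow, mul_inv_cancel]
  have hall : ∀ u ∈ ⁅(⊤ : Subgroup G), commutator G⁆, IsOfFinOrder u := by
    intro u hu
    rw [Subgroup.commutator_def] at hu
    induction hu using Subgroup.closure_induction with
    | mem x hx =>
      obtain ⟨a, -, b, hb, rfl⟩ := hx
      exact hg a b hb
    | one => exact IsOfFinOrder.one
    | mul x y _ _ hx hy => exact tors_mul hx hy
    | inv x _ hx => exact hx.inv
  intro x y
  obtain ⟨k, hk, hm⟩ := h x y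
  exact (hall _ hm).of_pow hk.ne'

theorem tors_comm_of {G : Type} [Group G] [Group.IsNilpotent G]
    (h : ∀ x y : G, ∃ k, 0 < k ∧ (x * y * x⁻¹ * y⁻¹) ^ k ∈ ⁅(⊤ : Subgroup G), commutator G⁆) :
    ∀ x y : G, IsOfFinOrder (x * y * x⁻¹ * y⁻¹) := by
  revert h
  refine Group.nilpotent_center_quotient_ind
    (P := fun (G : Type) [Group G] [Group.IsNilpotent G] =>
      (∀ x y : G, ∃ k, 0 < k ∧ (x * y * x⁻¹ * y⁻¹) ^ k ∈ ⁅(⊤ : Subgroup G), commutator G⁆) →
        ∀ x y : G, IsOfFinOrder (x * y * x⁻¹ * y⁻¹)) G ?_ ?_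
  · intro G _ _ _ x y
    rw [Subsingleton.elim (x * y * x⁻¹ * y⁻¹) 1]
    exact IsOfFinOrder.one
  · intro G _ _ ih h
    exact fb_step G ih h

end Pool.Agent.SLN
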