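import Mathlib
import Pool.Agent.SLN.Tor1
/-!
# Two elements of a nilpotent group which differ by an element of finite order have equal powers
-/
namespace Pool.Agent.SLN

private theorem fin_conj {G : Type} [Group G] {t : G} (ht : IsOfFinOrder t) (x : G) :
    IsOfFinOrder (x * t * x⁻¹) := by
  rw [isOfFinOrder_iff_pow_eq_one] at ht ⊢
  obtain ⟨n, hn, h3⟩ := ht
  refine ⟨n, hn, ?_⟩
  rw [conj_pow, h3]
  group

private theorem tors_pow {G : Type} [Group G] [Group.IsNilpotent G] {g h : G}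
    (ht : IsOfFinOrder (g * h⁻¹)) (e : ℕ) : IsOfFinOrder (g ^ e * (h ^ e)⁻¹) := by
  induction e with
  | zero => simp
  | succ e ih =>
    have e1 : g ^ (e + 1) * (h ^ (e + 1))⁻¹ = g * (g ^ e * (h ^ e)⁻¹) * g⁻¹ * (g * h⁻¹) := by
      rw [pow_succ', pow_succ' h]
      group
    rw [e1]
    exact tors_mul (fin_conj ih g) ht

theorem exists_pow_eq {G : Type} [Group G] [Group.IsNilpotent G] {g h : G}
    (ht : IsOfFinOrder (g * h⁻¹)) : ∃ e, 0 < e ∧ g ^ e = h ^ e := by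
  revert g h
  refine Group.nilpotent_center_quotient_ind
    (P := fun (G : Type) [Group G] [Group.IsNilpotent G] => ∀ {g h : G},
      IsOfFinOrder (g * h⁻¹) → ∃ e, 0 < e ∧ g ^ e = h ^ e) G ?_ ?_
  · intro G _ _ g h _
    exact ⟨1, Nat.one_pos, Subsingleton.elim _ _⟩
  · intro G _ _ ih g h ht
    have h1 : IsOfFinOrder ((QuotientGroup.mk' (Subgroup.center G)) g *
        ((QuotientGroup.mk' (Subgroup.center G)) h)⁻¹) := by
      rw [← map_inv, ← map_mul]
      exact MonoidHom.isOfFinOrder _ ht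
    obtain ⟨e, he, hee⟩ := ih h1
    rw [← map_pow, ← map_pow] at hee
    have h2 : (h ^ e)⁻¹ * g ^ e ∈ Subgroup.center G := QuotientGroup.eq.1 hee.symm
    have h3 : IsOfFinOrder ((h ^ e)⁻¹ * g ^ e) := by
      have h4 := fin_conj (tors_pow ht e) (h ^ e)⁻¹
      have e1 : (h ^ e)⁻¹ * (g ^ e * (h ^ e)⁻¹) * (h ^ e)⁻¹⁻¹ = (h ^ e)⁻¹ * g ^ e := by
        rw [inv_inv, mul_assoc, inv_mul_cancel_right]
      rwa [e1] at h4
    obtain ⟨f, hf, hff⟩ := isOfFinOrder_iff_pow_eq_one.1 h3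
    refine ⟨e * f, Nat.mul_pos he hf, ?_⟩
    have h5 : g ^ e = h ^ e * ((h ^ e)⁻¹ * g ^ e) := by
      rw [mul_inv_cancel_left]
    have h6 : Commute (h ^ e) ((h ^ e)⁻¹ * g ^ e) := Subgroup.mem_center_iff.1 h2 (h ^ e)
    rw [pow_mul, h5, h6.mul_pow, hff, mul_one, pow_mul]

end Pool.Agent.SLN
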