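import Mathlib
import Pool.Agent.SLN.Tor2
/-!
# Finitely generated nilpotent groups whose commutators have finite order
-/
namespace Pool.Agent.SLN

theorem virtAb_of_tors_comm {G : Type} [Group G] [Group.IsNilpotent G] (S : Set G)
    (hS : S.Finite) (hc : Subgroup.closure S = ⊤)
    (h : ∀ x y : G, IsOfFinOrder (x * y * x⁻¹ * y⁻¹)) : VirtAb G := by
  classical
  have key : ∀ a b : G, ∃ e, 0 < e ∧ b * a ^ e = a ^ e * b := by
    intro a b
    obtain ⟨e, he, h1⟩ := exists_pow_eq (g := b * a * b⁻¹) (h := a) (h b a)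
    refine ⟨e, he, ?_⟩
    rw [conj_pow, mul_inv_eq_iff_eq_mul] at h1
    exact h1
  have key2 : ∀ a : G, ∃ m, 0 < m ∧ a ^ m ∈ Subgroup.center G := by
    intro a
    choose e he hc' using key a
    refine ⟨∏ b ∈ hS.toFinset, e b, Finset.prod_pos (fun b _ => he b), ?_⟩
    have hsub : Subgroup.closure S ≤
        Subgroup.centralizer {a ^ (∏ b ∈ hS.toFinset, e b)} := by
      rw [Subgroup.closure_le]
      intro b hb
      rw [SetLike.mem_coe, Subgroup.mem_centralizer_singleton_iff]
      obtain ⟨c, hc2⟩ : e b ∣ ∏ b ∈ hS.toFinset, e b :=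
        Finset.dvd_prod_of_mem e (by simpa using hb)
      rw [hc2, pow_mul]
      have hcm : Commute b (a ^ e b) := hc' b
      exact (hcm.pow_right c)
    rw [Subgroup.mem_center_iff]
    intro g
    have hg : g ∈ Subgroup.closure S := by rw [hc]; trivial
    have h2 := hsub hg
    rw [Subgroup.mem_centralizer_singleton_iff] at h2
    exact h2
  have hfin : Finite (G ⧸ Subgroup.center G) := by
    refine finite_of_fg_torsion (G ⧸ Subgroup.center G)
      ((QuotientGroup.mk' (Subgroup.center G)) '' S) (hS.image _) ?_ ?_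
    · rw [← MonoidHom.map_closure, hc, ← MonoidHom.range_eq_map]
      exact MonoidHom.range_eq_top.2 (QuotientGroup.mk'_surjective _)
    · rintro _ ⟨s, _, rfl⟩
      obtain ⟨m, hm, hm2⟩ := key2 s
      rw [isOfFinOrder_iff_pow_eq_one]
      refine ⟨m, hm, ?_⟩
      rw [← map_pow, QuotientGroup.mk'_apply, QuotientGroup.eq_one_iff]
      exact hm2
  refine ⟨Subgroup.center G, ?_, ?_⟩
  · exact Subgroup.finiteIndex_of_finite_quotient
  · intro a ha b _
    rw [Subgroup.mem_center_iff] at ha
    exact (ha b).symm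

end Pool.Agent.SLN
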