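import Mathlib
import Pool.Agent.SLN.FormA
import Pool.Agent.SLN.FormB
import Pool.Agent.SLN.FormC
/-!
# The form of a finitely generated nilpotent group which is not virtually abelian
-/
namespace Pool.Agent.SLN

theorem exists_form {G : Type} [Group G] [Group.IsNilpotent G] (S : Set G)
    (hS : S.Finite) (hc : Subgroup.closure S = ⊤) (hG : ¬ VirtAb G) :
    ∃ lam : G → ℚ, IsForm lam ∧ ∃ x y, om lam x y ≠ 0 := by
  by_contra hcon
  apply hG
  apply virtAb_of_tors_comm S hS hc
  apply tors_comm_of
  intro x y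
  by_contra hk
  push Not at hk
  obtain ⟨lam, h1, h2⟩ := exists_form_of hk
  exact hcon ⟨lam, h1, x, y, h2⟩

end Pool.Agent.SLN
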