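import Mathlib
import Pool.Agent.SLN.Basic
/-!
# The language of irreducible strings
-/
namespace Pool.Agent.SLN
open Pool.Agent.SLX

private theorem lang_glue {A : Type} (u s w p l q : List A)
    (h : u ++ s ++ w = p ++ l ++ q) (hl : l.length ≤ s.length) :
    (∃ q', u ++ s = p ++ l ++ q') ∨ (∃ p', s ++ w = p' ++ l ++ q) := by
  rcases Nat.lt_or_ge (u.length + s.length) (p.length + l.length) with hc | hc
  · right
    have hp : u.length ≤ p.length := by omega
    rw [List.append_assoc, List.append_assoc] at h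
    rcases List.append_eq_append_iff.1 h with ⟨a, ha1, ha2⟩ | ⟨c, hc1, hc2⟩
    · exact ⟨a, by rw [ha2, List.append_assoc]⟩
    · have h1 : c.length = 0 := by
        have := congrArg List.length hc1
        rw [List.length_append] at this
        omega
      have h2 : c = [] := List.length_eq_zero_iff.1 h1
      subst h2
      exact ⟨[], by rw [List.nil_append] at hc2; rw [← hc2]; simp⟩
  · left
    rcases List.append_eq_append_iff.1 h with ⟨a, ha1, ha2⟩ | ⟨c, hc1, hc2⟩
    · have h1 : a.length = 0 := by
        have := congrArg List.length ha1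
        simp only [List.length_append] at this
        omega
      have h2 : a = [] := List.length_eq_zero_iff.1 h1
      subst h2
      exact ⟨[], by rw [ha1]; simp⟩
    · exact ⟨c, hc1⟩

theorem goodLang {A G : Type} [LinearOrder A] [Group G] {π : A → G}
    {E : Set (List A × List A)} (h : IsSystem π E) :
    GoodLang π (fun w => ∀ v, ¬ Step E w v) := by
  refine ⟨?_, ?_, ?_, ?_⟩
  · intro p w q hL v hs
    obtain ⟨p', l, r, q', hr, rfl, rfl⟩ := hs
    exact hL (p ++ (p' ++ r ++ q') ++ q) ⟨p ++ p', l, r, q' ++ q, hr, by simp, by simp⟩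
  · intro u v hu hv he
    rw [h.presents] at he
    have h1 : NormalForm E u u := ⟨Relation.ReflTransGen.refl, hu⟩
    have h2 : NormalForm E v v := ⟨Relation.ReflTransGen.refl, hv⟩
    exact (h.complete v).unique ((h.nf_iff he u).1 h1) h2
  · intro w
    obtain ⟨v, ⟨hv1, hv2⟩, -⟩ := h.complete w
    refine ⟨v, hv2, ?_⟩
    clear hv2
    induction hv1 with
    | refl => exact ⟨rfl, le_rfl⟩
    | tail _ hs ih =>
      rename_i b c _
      refine ⟨?_, (h.step_length hs).trans ih.2⟩
      rw [← ih.1]
      symm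
      rw [h.presents]
      exact Relation.EqvGen.rel _ _ hs
  · obtain ⟨R, hR⟩ := h.exists_bound
    refine ⟨R, ?_⟩
    intro u s w hs h1 h2 v hstep
    obtain ⟨p, l, r, q, hr, he, rfl⟩ := hstep
    rcases lang_glue u s w p l q he ((hR l r hr).1.trans hs) with ⟨q', hq⟩ | ⟨p', hp⟩
    · exact h1 (p ++ r ++ q') ⟨p, l, r, q', hr, hq, rfl⟩
    · exact h2 (p' ++ r ++ q) ⟨p', l, r, q, hr, hp, rfl⟩

end Pool.Agent.SLN
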