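import Mathlib
import Pool.Agent.SLN.Basic
/-!
# The Thue-Morse law of nilpotent groups
-/
namespace Pool.Agent.SLN
open scoped commutatorElement

private theorem tm_aux (G : Type) [Group G] (n : ℕ) :
    ∀ u v : G, (tm n v u)⁻¹ * tm n u v ∈ (⊤ : Subgroup G).lowerCentralSeries n := by
  induction n with
  | zero => intro u v; simp
  | succ n ih =>
    intro u v
    have hd : (tm n v u)⁻¹ * tm n u v ∈ (⊤ : Subgroup G).lowerCentralSeries n := ih u v
    set a := tm n u v with ha
    set b := tm n v u with hb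
    have e : (tm (n + 1) v u)⁻¹ * tm (n + 1) u v = ⁅(b⁻¹ * a)⁻¹, b⁻¹⁆ := by
      simp only [tm, ← ha, ← hb, commutatorElement_def]
      group
    rw [e, Subgroup.lowerCentralSeries_succ]
    exact Subgroup.commutator_mem_commutator (inv_mem hd) (Subgroup.mem_top _)

theorem tm_law (G : Type) [Group G] [Group.IsNilpotent G] :
    ∃ n, ∀ u v : G, tm n u v = tm n v u := by
  obtain ⟨n, hn⟩ := Subgroup.nilpotent_iff_lowerCentralSeries.1
    (inferInstance : Group.IsNilpotent G)
  refine ⟨n, fun u v => ?_⟩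
  have h := tm_aux G n u v
  rw [hn, Subgroup.mem_bot] at h
  exact (inv_mul_eq_one.1 h).symm

end Pool.Agent.SLN
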