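import Mathlib
import Pool.Agent.SLN.Basic
/-!
# Lifting through a finite normal subgroup
-/
namespace Pool.Agent.SLN
open scoped commutatorElement

variable {G : Type} [Group G] (T : Subgroup G) [T.Normal] [Finite T]

private theorem pow_card_of_mem {t : G} (ht : t ∈ T) : t ^ Nat.card T = 1 := by
  have h : (⟨t, ht⟩ : T) ^ Nat.card T = 1 := pow_card_eq_one'
  exact congrArg (Subtype.val) h

theorem lift_tors {g : G} (h : IsOfFinOrder (QuotientGroup.mk g : G ⧸ T)) : IsOfFinOrder g := by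
  rw [isOfFinOrder_iff_pow_eq_one] at h ⊢
  obtain ⟨k, hk, h⟩ := h
  have h1 : g ^ k ∈ T := by
    rw [← QuotientGroup.eq_one_iff]
    exact h
  refine ⟨k * Nat.card T, Nat.mul_pos hk Nat.card_pos, ?_⟩
  rw [pow_mul]
  exact pow_card_of_mem T h1

theorem lift_pow_eq {g h : G}
    (he : ∃ e, 0 < e ∧ (QuotientGroup.mk g : G ⧸ T) ^ e = (QuotientGroup.mk h : G ⧸ T) ^ e) :
    ∃ e, 0 < e ∧ g ^ e = h ^ e := by
  obtain ⟨e, he0, he⟩ := he
  have hfin : IsOfFinOrder (MulAut.conjNormal (H := T) (h ^ e)) := by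
    have : Finite (MulAut T) := by
      have hinj : Function.Injective (fun f : MulAut T => (f : T → T)) :=
        fun a b hab => MulEquiv.ext (fun x => congrFun hab x)
      exact Finite.of_injective _ hinj
    exact isOfFinOrder_of_finite _
  rw [isOfFinOrder_iff_pow_eq_one] at hfin
  obtain ⟨m, hm0, hm⟩ := hfin
  rw [← map_pow] at hm
  have hcomm : ∀ t ∈ T, (h ^ e) ^ m * t = t * (h ^ e) ^ m := by
    intro t ht
    have h1 := congrArg (fun f : MulAut T => ((f ⟨t, ht⟩ : T) : G)) hm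
    simp only [MulAut.conjNormal_apply, MulAut.one_apply] at h1
    exact mul_inv_eq_iff_eq_mul.mp h1
  have hq : (QuotientGroup.mk ((g ^ e) ^ m) : G ⧸ T) = QuotientGroup.mk ((h ^ e) ^ m) := by
    have e1 : (QuotientGroup.mk ((g ^ e) ^ m) : G ⧸ T) = ((QuotientGroup.mk g : G ⧸ T) ^ e) ^ m :=
      rfl
    have e2 : (QuotientGroup.mk ((h ^ e) ^ m) : G ⧸ T) = ((QuotientGroup.mk h : G ⧸ T) ^ e) ^ m :=
      rfl
    rw [e1, e2, he]
  have ht : ((h ^ e) ^ m)⁻¹ * (g ^ e) ^ m ∈ T := QuotientGroup.eq.mp hq.symm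
  set t := ((h ^ e) ^ m)⁻¹ * (g ^ e) ^ m with htdef
  have hg : (g ^ e) ^ m = (h ^ e) ^ m * t := by
    rw [htdef]; group
  refine ⟨e * m * Nat.card T, Nat.mul_pos (Nat.mul_pos he0 hm0) Nat.card_pos, ?_⟩
  rw [pow_mul, pow_mul, pow_mul h, pow_mul h, hg]
  have hc : Commute ((h ^ e) ^ m) t := hcomm t ht
  rw [hc.mul_pow, pow_card_of_mem T ht, mul_one]

theorem lift_cone {P : Set (G ⧸ T)} (hP : Cone P) :
    Cone {g : G | (QuotientGroup.mk g : G ⧸ T) ∈ P} where
  mul := fun g hg h hh => hP.mul _ hg _ hh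
  conj := fun g hg x => hP.conj _ hg (QuotientGroup.mk x)
  total := by
    intro g
    rcases hP.total (QuotientGroup.mk g) with h | h | h
    · exact Or.inl h
    · exact Or.inr (Or.inl h)
    · exact Or.inr (Or.inr (lift_tors T h))
  tors := by
    intro g hg hf
    exact hP.tors _ hg ((QuotientGroup.mk' T).isOfFinOrder hf)

omit [Finite T] in
private theorem flat_mk {g : G} (h : Flat g) : Flat (QuotientGroup.mk g : G ⧸ T) := by
  intro f hf
  exact h (fun x => f (QuotientGroup.mk x)) (fun x y => hf (QuotientGroup.mk x) (QuotientGroup.mk y))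

theorem lift_form {lam : G ⧸ T → ℚ} (h : IsForm lam) :
    IsForm (fun g : G => lam (QuotientGroup.mk g)) where
  mul := fun _ _ hm hn => h.mul _ _ (flat_mk T hm) (flat_mk T hn)
  conj := fun _ x hn => h.conj _ (QuotientGroup.mk x) (flat_mk T hn)

theorem lift_virtAb (S : Set G) (hS : S.Finite) (hc : Subgroup.closure S = ⊤)
    (h : VirtAb (G ⧸ T)) : VirtAb G := by
  obtain ⟨H', hfi, hcomm⟩ := h
  have hG : Group.FG G := ⟨⟨hS.toFinset, by rw [Set.Finite.coe_toFinset]; exact hc⟩⟩
  let H : Subgroup G := H'.comap (QuotientGroup.mk' T)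
  have hH : H.FiniteIndex := by
    refine ⟨?_⟩
    show (H'.comap (QuotientGroup.mk' T)).index ≠ 0
    rw [Subgroup.index_comap_of_surjective _ (QuotientGroup.mk'_surjective T)]
    exact hfi.index_ne_zero
  have hHfg : Group.FG H := Subgroup.fg_of_index_ne_zero H
  have hmem : ∀ x y : H, ((⁅x, y⁆ : H) : G) ∈ T := by
    intro x y
    rw [← QuotientGroup.eq_one_iff]
    have e1 := hcomm (QuotientGroup.mk (x : G)) x.2 (QuotientGroup.mk (y : G)) y.2
    have e2 : (QuotientGroup.mk ((⁅x, y⁆ : H) : G) : G ⧸ T) =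
        QuotientGroup.mk (x : G) * QuotientGroup.mk (y : G) * (QuotientGroup.mk (x : G))⁻¹ *
          (QuotientGroup.mk (y : G))⁻¹ := rfl
    rw [e2, e1]
    group
  have hfin : Finite (commutatorSet H) := by
    have hmem' : ∀ c : commutatorSet H, ((c : H) : G) ∈ T := by
      rintro ⟨c, x, y, rfl⟩
      exact hmem x y
    have hinj : Function.Injective
        (fun c : commutatorSet H => (⟨((c : H) : G), hmem' c⟩ : T)) := by
      intro a b hab
      have := congrArg (Subtype.val) hab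
      exact Subtype.ext (Subtype.ext this)
    exact Finite.of_injective _ hinj
  have hcen : (Subgroup.center H).FiniteIndex := inferInstance
  refine ⟨(Subgroup.center H).map H.subtype, ⟨?_⟩, ?_⟩
  · rw [Subgroup.index_map_subtype]
    exact Nat.mul_ne_zero hcen.index_ne_zero hH.index_ne_zero
  · rintro a ⟨a', ha', rfl⟩ b ⟨b', hb', rfl⟩
    have := Subgroup.mem_center_iff.mp ha' b'
    show (a' : G) * b' = b' * a'
    have h2 := congrArg (Subtype.val) this
    exact h2.symm

theorem mk_tm (n : ℕ) (u v : G) : (QuotientGroup.mk (tm n u v) : G ⧸ T) =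
    tm n (QuotientGroup.mk u : G ⧸ T) (QuotientGroup.mk v : G ⧸ T) := by
  induction n generalizing u v with
  | zero => rfl
  | succ n ih =>
    rw [tm, tm, QuotientGroup.mk_mul, ih, ih]

end Pool.Agent.SLN
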