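import Mathlib
import Pool.Agent.SLN.Core
import Pool.Agent.SLN.Lang
import Pool.Agent.SLN.Lift
import Pool.Agent.SLN.FormD
import Pool.Agent.SLN.ConeN
import Pool.Agent.SLN.Law
/-!
# Finite-by-nilpotent groups with a finite complete ShortLex system are virtually abelian
-/
namespace Pool.Agent.SLN
open Pool.Agent.SLX

theorem main {G : Type} [Group G] (T : Subgroup G) [T.Normal] [Finite T]
    [Group.IsNilpotent (G ⧸ T)] (h : HasSystem G) : VirtAb G := by
  obtain ⟨A, hfin, hlin, π, E, hE⟩ := h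
  have hL := goodLang hE
  by_contra hV
  set S : Set G := Set.range π with hSdef
  have hS : S.Finite := Set.finite_range π
  have hc : Subgroup.closure S = ⊤ := by
    rw [eq_top_iff]
    intro g _
    obtain ⟨w, rfl⟩ := hE.surj g
    induction w with
    | nil => exact Subgroup.one_mem _
    | cons a w ih =>
      rw [vcons]
      exact Subgroup.mul_mem _ (Subgroup.subset_closure ⟨a, rfl⟩) (ih trivial)
  set S' : Set (G ⧸ T) := (QuotientGroup.mk' T) '' S with hS'def
  have hS' : S'.Finite := hS.image _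
  have hc' : Subgroup.closure S' = ⊤ := by
    rw [hS'def, ← MonoidHom.map_closure, hc]
    exact Subgroup.map_top_of_surjective _ (QuotientGroup.mk'_surjective T)
  have hV' : ¬ VirtAb (G ⧸ T) := fun h' => hV (lift_virtAb T S hS hc h')
  obtain ⟨lam, hlam, x, y, hxy⟩ := exists_form S' hS' hc' hV'
  obtain ⟨P, hP⟩ := exists_cone (G ⧸ T)
  obtain ⟨x, rfl⟩ := QuotientGroup.mk_surjective x
  obtain ⟨y, rfl⟩ := QuotientGroup.mk_surjective y
  refine core hL hE.surj (lift_cone T hP) (lift_form T hlam) ⟨x, y, hxy⟩ ?_ ?_ ?_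
  · intro g h hg hh
    apply lift_tors T
    have hg' : IsOfFinOrder (QuotientGroup.mk g : G ⧸ T) :=
      MonoidHom.isOfFinOrder (QuotientGroup.mk' T) hg
    have hh' : IsOfFinOrder (QuotientGroup.mk h : G ⧸ T) :=
      MonoidHom.isOfFinOrder (QuotientGroup.mk' T) hh
    exact tors_mul hg' hh'
  · intro g h hgh
    apply lift_pow_eq T
    apply exists_pow_eq
    exact MonoidHom.isOfFinOrder (QuotientGroup.mk' T) hgh
  · obtain ⟨n, hn⟩ := tm_law (G ⧸ T)
    refine ⟨n, fun u v => ?_⟩
    apply lift_pow_eq T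
    refine ⟨1, one_pos, ?_⟩
    rw [mk_tm, mk_tm, hn]

end Pool.Agent.SLN
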